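import Pool.Agent.Q100.IV.Split

set_option autoImplicit false
set_option linter.unusedSectionVars false

/-!
# The split case: the main identity
-/

open scoped Classical BigOperators
open Pool.Agent.Helper884.IC Pool.Agent.Y63.KR

noncomputable section

namespace Pool.Agent.Q100.IV

variable {E : Type} [Group E] {p : ℕ}

/-- a `p`-element of `⟨y⟩ ∩ G` -/
theorem alt_w [Fact p.Prime] [Finite E] {G : Subgroup E} [G.Normal] {x y w : E} {k : ℕ}
    (hw1 : w ≠ 1) (hwG : w ∈ G) (hwp : w ^ p ^ k = 1) (hwy : w ∈ Subgroup.zpowers y)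
    (hxy : y * x = x * y) : alt (· ≤ ·) (SS p ({x, y} : Set E) G ⊥) = 0 := by
  have hcy : y * w = w * y := by
    obtain ⟨k, hk⟩ := Subgroup.mem_zpowers_iff.mp hwy
    rw [← hk]
    exact ((Commute.refl y).zpow_right k).eq
  have hcx : x * w = w * x := by
    obtain ⟨k, hk⟩ := Subgroup.mem_zpowers_iff.mp hwy
    rw [← hk]
    have : Commute x y := hxy.symm
    exact (this.zpow_right k).eq
  have hconj : ∀ g : E, g * w = w * g → conjSub g (Subgroup.zpowers w) = Subgroup.zpowers w := by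
    intro g hg
    unfold conjSub
    rw [MonoidHom.map_zpowers]
    congr 1
    change g * w * g⁻¹ = w
    rw [hg]; group
  refine alt_sub (W := Subgroup.zpowers w) ?_ ?_ ?_ ?_ ?_
  · intro z
    obtain ⟨j, hj⟩ := Subgroup.mem_zpowers_iff.mp z.2
    refine ⟨k, Subtype.ext ?_⟩
    change (z : E) ^ p ^ k = 1
    rw [← hj, ← zpow_natCast, ← zpow_mul, mul_comm, zpow_mul, zpow_natCast, hwp, one_zpow]
  · rw [Ne, Subgroup.zpowers_eq_bot]
    exact hw1
  · rw [Subgroup.zpowers_le]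
    exact hwG
  · rw [Subgroup.zpowers_le]
    have h1 : Subgroup.zpowers y ≤ Subgroup.closure ({x, y} : Set E) := by
      rw [Subgroup.zpowers_le]
      exact Subgroup.subset_closure (by simp)
    exact h1 hwy
  · rintro g (rfl | hg)
    · exact hconj _ hcx
    · have hg' : g = y := hg
      rw [hg']
      exact hconj _ hcy

/-- exponents giving the `p`-part and the `p'`-part of the elements of a group of order `N` -/
lemma exists_exps (hp : p.Prime) {N : ℕ} (hN : N ≠ 0) : ∃ γ β A M : ℕ, N = p ^ A * M ∧ ¬ p ∣ M ∧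
    γ ≡ 1 [MOD p ^ A] ∧ M ∣ γ ∧ p ^ A ∣ β ∧ β ≡ 1 [MOD M] ∧ γ + β ≡ 1 [MOD N] := by
  set A := N.factorization p with hA
  set M := N / p ^ A with hM
  have h1 : p ^ A * M = N := Nat.ordProj_mul_ordCompl_eq_self _ _
  have h2 : ¬ p ∣ M := Nat.not_dvd_ordCompl hp hN
  have hco : Nat.Coprime (p ^ A) M := ((Nat.Prime.coprime_iff_not_dvd hp).mpr h2).pow_left A
  obtain ⟨γ, hγ1, hγ2⟩ := Nat.chineseRemainder hco 1 0
  obtain ⟨β, hβ1, hβ2⟩ := Nat.chineseRemainder hco 0 1
  refine ⟨γ, β, A, M, h1.symm, h2, hγ1, (Nat.modEq_zero_iff_dvd).mp hγ2,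
    (Nat.modEq_zero_iff_dvd).mp hβ1, hβ2, ?_⟩
  rw [← h1]
  refine (Nat.modEq_and_modEq_iff_modEq_mul hco).mp ⟨?_, ?_⟩
  · exact hγ1.add hβ1
  · exact hγ2.add hβ2

variable {G : Subgroup E} [hG : G.Normal]

lemma classNum_iso : IsoInv (fun H : Subgroup E => (Nat.card (ConjClasses H) : ℤ)) := by
  rintro H K ⟨e⟩
  have h : Nat.card (ConjClasses H) = Nat.card (ConjClasses K) :=
    Nat.card_congr
      { toFun := ConjClasses.map e.toMonoidHom
        invFun := ConjClasses.map e.symm.toMonoidHom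
        left_inv := by
          intro c
          obtain ⟨x, rfl⟩ := ConjClasses.mk_surjective c
          change ConjClasses.mk (e.symm (e x)) = ConjClasses.mk x
          rw [e.symm_apply_apply]
        right_inv := by
          intro c
          obtain ⟨x, rfl⟩ := ConjClasses.mk_surjective c
          change ConjClasses.mk (e (e.symm x)) = ConjClasses.mk x
          rw [e.apply_symm_apply] }
  exact congrArg (Nat.cast : ℕ → ℤ) h

/-- the alternating sum of the class numbers of a group in terms of commuting pairs -/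
theorem altK [Fact p.Prime] {C : Type} [Group C] [Finite C]
    [Fintype {q : C × C // Commute q.1 q.2}] :
    (Nat.card C : ℤ) * alternatingSum p C (fun H => (Nat.card (ConjClasses H) : ℤ)) =
      ∑ t : {q : C × C // Commute q.1 q.2}, W p ({t.1.1, t.1.2} : Set C) := by
  refine main_count _ classNum_iso (fun t : {q : C × C // Commute q.1 q.2} => {t.1.1, t.1.2}) ?_
  intro H
  have h1 := card_comm_eq_card_conjClasses_mul_card (G := H)
  rw [mul_comm] at h1
  rw [← Nat.cast_mul, ← h1]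
  norm_cast
  refine Nat.card_congr
    { toFun := fun q => ⟨⟨((q.1.1 : C), (q.1.2 : C)), congrArg Subtype.val q.2⟩, ?_⟩
      invFun := fun t => ⟨(⟨t.1.1.1, t.2 (by simp)⟩, ⟨t.1.1.2, t.2 (by simp)⟩),
        Subtype.ext t.1.2⟩
      left_inv := fun _ => rfl
      right_inv := fun _ => rfl }
  rintro z (rfl | hz)
  · exact q.1.1.2
  · have hz' : z = q.1.2 := hz
    rw [hz']
    exact q.1.2.2

/-- **Main identity.** -/
theorem radSum_split [hp : Fact p.Prime] [Finite E] [Fintype E] (hO : Op p G = ⊥) {e : E} {a : ℕ}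
    (he : orderOf (e : E ⧸ G) = p ^ a) :
    (Nat.card G : ℤ) * radSum p G (fun S => (aa G S e : ℤ)) =
      ∑ u ∈ Finset.univ.filter (fun u : E => u * e⁻¹ ∈ G ∧ orderOf u = p ^ a),
        (Nat.card (CG G u) : ℤ) *
          alternatingSum p (CG G u) (fun H => (Nat.card (ConjClasses H) : ℤ)) := by
  rw [radSum_aa hO e]
  obtain ⟨γ, β, A, M, hN, hM, hγ, hMγ, hβ, hβM, hγβ⟩ :=
    exists_exps hp.out (N := Nat.card E) Nat.card_pos.ne'
  have hpow : ∀ y : E, y ^ Nat.card E = 1 := fun y => pow_card_eq_one'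
  have hsplit : ∀ y : E, y ^ γ * y ^ β = y := by
    intro y
    rw [← pow_add]
    conv_rhs => rw [← pow_one y]
    exact pow_eq_pow_iff_modEq.mpr (hγβ.of_dvd (orderOf_dvd_of_pow_eq_one (hpow y)))
  have hpp : ∀ y : E, (y ^ γ) ^ p ^ A = 1 := by
    intro y
    obtain ⟨c, hc⟩ := hMγ
    rw [← pow_mul, hc]
    have : M * c * p ^ A = Nat.card E * c := by rw [hN]; ring
    rw [this, pow_mul, hpow, one_pow]
  have hreg : ∀ y : E, ¬ p ∣ orderOf (y ^ β) := by
    intro y h
    apply hM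
    refine h.trans (orderOf_dvd_of_pow_eq_one ?_)
    obtain ⟨c, hc⟩ := hβ
    rw [← pow_mul, hc]
    have : p ^ A * c * M = Nat.card E * c := by rw [hN]; ring
    rw [this, pow_mul, hpow, one_pow]
  -- powers of `p`-elements and of `p`-regular elements
  have hpu : ∀ u : E, (∃ k, u ^ p ^ k = 1) → u ^ γ = u ∧ u ^ β = 1 := by
    rintro u ⟨k, hk⟩
    have hd : orderOf u ∣ p ^ A := by
      have h1 : orderOf u ∣ Nat.card E := orderOf_dvd_natCard u
      obtain ⟨j, -, hj⟩ := (Nat.dvd_prime_pow hp.out).mp (orderOf_dvd_of_pow_eq_one hk)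
      rw [hj, hN] at h1
      rw [hj]
      exact Nat.Coprime.dvd_of_dvd_mul_right
        (((Nat.Prime.coprime_iff_not_dvd hp.out).mpr hM).pow_left j) h1
    constructor
    · conv_rhs => rw [← pow_one u]
      exact pow_eq_pow_iff_modEq.mpr (hγ.of_dvd hd)
    · exact orderOf_dvd_iff_pow_eq_one.mp (hd.trans hβ)
  have hpz : ∀ z : E, ¬ p ∣ orderOf z → z ^ γ = 1 ∧ z ^ β = z := by
    intro z hz
    have hd : orderOf z ∣ M := by
      have h1 : orderOf z ∣ Nat.card E := orderOf_dvd_natCard z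
      rw [hN] at h1
      exact Nat.Coprime.dvd_of_dvd_mul_left
        (((Nat.Prime.coprime_iff_not_dvd hp.out).mpr hz).symm.pow_right A) h1
    constructor
    · exact orderOf_dvd_iff_pow_eq_one.mp (hd.trans hMγ)
    · conv_rhs => rw [← pow_one z]
      exact pow_eq_pow_iff_modEq.mpr (hβM.of_dvd hd)
  have haA : p ^ a ∣ p ^ A := by
    have h1 : orderOf (e : E ⧸ G) ∣ Nat.card E :=
      (orderOf_dvd_natCard _).trans (Subgroup.card_quotient_dvd_card G)
    rw [he, hN] at h1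
    exact Nat.Coprime.dvd_of_dvd_mul_right
      (((Nat.Prime.coprime_iff_not_dvd hp.out).mpr hM).pow_left a) h1
  have heγ : (e : E ⧸ G) ^ γ = (e : E ⧸ G) := by
    conv_rhs => rw [← pow_one (e : E ⧸ G)]
    refine pow_eq_pow_iff_modEq.mpr (hγ.of_dvd ?_)
    rw [he]
    exact haA
  have hcos : ∀ y : E, y * e⁻¹ ∈ G ↔ (y : E ⧸ G) = (e : E ⧸ G) := by
    intro y
    rw [QuotientGroup.eq]
    constructor
    · intro h
      have h2 := hG.conj_mem _ (G.inv_mem h) y⁻¹
      have e2 : y⁻¹ * (y * e⁻¹)⁻¹ * y⁻¹⁻¹ = y⁻¹ * e := by group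
      rwa [e2] at h2
    · intro h
      have h2 := hG.conj_mem _ (G.inv_mem h) y
      have e2 : y * (y⁻¹ * e)⁻¹ * y⁻¹ = y * e⁻¹ := by group
      rwa [e2] at h2
  have hcosγ : ∀ y : E, y * e⁻¹ ∈ G → (y ^ γ) * e⁻¹ ∈ G := by
    intro y hy
    rw [hcos] at hy ⊢
    rw [QuotientGroup.mk_pow, hy, heγ]
  -- restriction to the pairs with a complement
  have hstep1 : ∑ q ∈ Finset.univ.filter (fun q : E × E => q.1 ∈ G ∧ q.2 * e⁻¹ ∈ G ∧
      q.2 * q.1 = q.1 * q.2), alt (· ≤ ·) (SS p {q.1, q.2} G ⊥) =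
      ∑ q ∈ (Finset.univ.filter (fun q : E × E => q.1 ∈ G ∧ q.2 * e⁻¹ ∈ G ∧
        q.2 * q.1 = q.1 * q.2)).filter (fun q => orderOf (q.2 ^ γ) = p ^ a),
        alt (· ≤ ·) (SS p {q.1, q.2} G ⊥) := by
    rw [Finset.sum_filter (s := Finset.univ.filter (fun q : E × E => q.1 ∈ G ∧ q.2 * e⁻¹ ∈ G ∧
        q.2 * q.1 = q.1 * q.2))]
    refine Finset.sum_congr rfl fun q hq => ?_
    rw [Finset.mem_filter] at hq
    split_ifs with h1
    · rfl
    · set u := q.2 ^ γ with hu
      have hubar : orderOf (u : E ⧸ G) = p ^ a := by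
        rw [(hcos _).mp (hcosγ _ hq.2.2.1), he]
      have hd : p ^ a ∣ orderOf u := by
        rw [← hubar]
        exact orderOf_map_dvd (QuotientGroup.mk' G) u
      refine alt_w (w := u ^ p ^ a) (k := A) ?_ ?_ ?_ ?_ hq.2.2.2
      · intro h
        exact h1 (Nat.dvd_antisymm (orderOf_dvd_of_pow_eq_one h) hd)
      · rw [← QuotientGroup.eq_one_iff, QuotientGroup.mk_pow, ← hubar, pow_orderOf_eq_one]
      · rw [← pow_mul, mul_comm, pow_mul, hpp, one_pow]
      · exact Subgroup.pow_mem _ (Subgroup.pow_mem _ (Subgroup.mem_zpowers _) _) _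
  rw [hstep1, ← Finset.sum_fiberwise_of_maps_to (g := fun q : E × E => q.2 ^ γ)
    (t := Finset.univ.filter (fun u : E => u * e⁻¹ ∈ G ∧ orderOf u = p ^ a))]
  swap
  · intro q hq
    rw [Finset.mem_filter, Finset.mem_filter] at hq
    rw [Finset.mem_filter]
    exact ⟨Finset.mem_univ _, hcosγ _ hq.1.2.2.1, hq.2⟩
  refine Finset.sum_congr rfl fun u hu => ?_
  rw [Finset.mem_filter] at hu
  have hup : ∃ k : ℕ, u ^ p ^ k = 1 := ⟨a, by rw [← hu.2.2]; exact pow_orderOf_eq_one u⟩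
  have : Fintype {q : CG G u × CG G u // Commute q.1 q.2} := Fintype.ofFinite _
  rw [altK]
  have hstep2 : ∑ t : {q : CG G u × CG G u // Commute q.1 q.2}, W p {t.1.1, t.1.2} =
      ∑ t ∈ Finset.univ.filter (fun t : {q : CG G u × CG G u // Commute q.1 q.2} =>
        ¬ p ∣ orderOf (t.1.2 : E)), W p {t.1.1, t.1.2} := by
    symm
    refine Finset.sum_filter_of_ne fun t _ ht h => ht ?_
    have h1 : p ∣ orderOf t.1.2 := by rwa [← Subgroup.orderOf_coe]
    have h2 := W_eq_zero (p := p) (s := 1) (x := t.1.2) (y := t.1.1) (by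
      rw [pow_one, t.2.eq]; group) h1
    rw [Set.pair_comm]
    exact h2
  rw [hstep2]
  symm
  refine Finset.sum_bij (fun t _ => ((t.1.1 : E), u * (t.1.2 : E))) ?_ ?_ ?_ ?_
  · intro t ht
    rw [Finset.mem_filter] at ht
    have hx := mem_CG.mp t.1.1.2
    have hz := mem_CG.mp t.1.2.2
    have hxz : (t.1.1 : E) * t.1.2 = t.1.2 * t.1.1 := congrArg Subtype.val t.2.eq
    have huz : (u * (t.1.2 : E)) ^ γ = u := by
      have hc : Commute u (t.1.2 : E) := hz.2
      rw [hc.mul_pow, (hpu u hup).1, (hpz _ ht.2).1, mul_one]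
    rw [Finset.mem_filter, Finset.mem_filter, Finset.mem_filter]
    refine ⟨⟨⟨Finset.mem_univ _, hx.1, ?_, ?_⟩, ?_⟩, huz⟩
    · change u * (t.1.2 : E) * e⁻¹ ∈ G
      have : u * (t.1.2 : E) * e⁻¹ = u * (t.1.2 : E) * u⁻¹ * (u * e⁻¹) := by group
      rw [this]
      exact G.mul_mem (hG.conj_mem _ hz.1 u) hu.2.1
    · change u * (t.1.2 : E) * t.1.1 = t.1.1 * (u * t.1.2)
      rw [mul_assoc, ← hxz, ← mul_assoc, hx.2, mul_assoc]
    · change orderOf ((u * (t.1.2 : E)) ^ γ) = p ^ a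
      rw [huz, hu.2.2]
  · intro t _ t' _ h
    rw [Prod.mk.injEq] at h
    apply Subtype.ext
    exact Prod.ext (Subtype.ext h.1) (Subtype.ext (mul_left_cancel h.2))
  · intro q hq
    rw [Finset.mem_filter, Finset.mem_filter, Finset.mem_filter] at hq
    obtain ⟨⟨⟨-, hx, hye, hxy⟩, -⟩, hqu⟩ := hq
    have hcx : Commute q.2 q.1 := hxy
    have hcu : ∀ n : ℕ, q.2 ^ n * q.1 = q.1 * q.2 ^ n := fun n => (hcx.pow_left n).eq
    have hxC : q.1 ∈ CG G u := mem_CG.mpr ⟨hx, by rw [← hqu]; exact hcu γ⟩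
    have hzG : q.2 ^ β ∈ G := by
      have h1 : q.2 ^ β = u⁻¹ * q.2 := by
        have h2 := hsplit q.2
        rw [hqu] at h2
        conv_rhs => rw [← h2]
        group
      rw [h1, ← QuotientGroup.eq]
      rw [(hcos _).mp hye, (hcos _).mp hu.2.1]
    have hzC : q.2 ^ β ∈ CG G u := by
      refine mem_CG.mpr ⟨hzG, ?_⟩
      rw [← hqu]
      exact ((Commute.refl q.2).pow_pow γ β).eq
    refine ⟨⟨(⟨q.1, hxC⟩, ⟨q.2 ^ β, hzC⟩), ?_⟩, ?_, ?_⟩
    · exact Subtype.ext (hcu β).symm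
    · rw [Finset.mem_filter]
      exact ⟨Finset.mem_univ _, hreg q.2⟩
    · refine Prod.ext rfl ?_
      change u * q.2 ^ β = q.2
      rw [← hqu]
      exact hsplit q.2
  · intro t ht
    rw [Finset.mem_filter] at ht
    have hz := mem_CG.mp t.1.2.2
    have hc : Commute u (t.1.2 : E) := hz.2
    change W p {t.1.1, t.1.2} = alt (· ≤ ·) (SS p {(t.1.1 : E), u * (t.1.2 : E)} G ⊥)
    rw [alt_centralizer hup t.1.1.2 t.1.2.2 ⟨γ, β, ?_, ?_⟩, W_alt, ← alt_subgroup, Set.image_pair]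
    · rw [hc.mul_pow, (hpu u hup).1, (hpz _ ht.2).1, mul_one]
    · rw [hc.mul_pow, (hpu u hup).2, (hpz _ ht.2).2, one_mul]

end Pool.Agent.Q100.IV
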