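import Pool.Agent.Q100.IV.Rad
import Pool.Agent.Y63.AWC.Norm

set_option autoImplicit false
set_option linter.unusedSectionVars false

/-!
# Invariant irreducible characters and commuting pairs in a coset
-/

open scoped Classical BigOperators
open Pool.Agent.Helper884.IC Pool.Agent.Y63.AWC Pool.Agent.Y63.KR

noncomputable section

namespace Pool.Agent.Q100.IV

/-- **Brauer's permutation lemma**, in terms of pairs -/
theorem brauer {H : Type} [Group H] [Finite H] (α : H ≃* H) :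
    Nat.card H * Nat.card {ψ : H → ℂ // IsIrrChar ψ ∧ ∀ x, ψ (α x) = ψ x} =
      Nat.card {q : H × H // q.2 * α q.1 * q.2⁻¹ = q.1} := by
  have : Fintype H := Fintype.ofFinite H
  have h0 := cardG_ne (G := H)
  have h1 : ∀ ψ ∈ Irr H, ∑ x : H, ψ (α x) * ψ x⁻¹ =
      if (∀ x, ψ (α x) = ψ x) then (Nat.card H : ℂ) else 0 := by
    intro ψ hψ
    have h := mem_Irr.mp hψ
    have h2 := B_irr (irr_comp α h) h
    unfold B at h2
    have h3 : ∑ x : H, ψ (α x) * ψ x⁻¹ =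
        (Nat.card H : ℂ) * ((Nat.card H : ℂ)⁻¹ * ∑ g : H, ψ (α g) * ψ g⁻¹) := by
      rw [← mul_assoc, mul_inv_cancel₀ h0, one_mul]
    rw [h3, h2]
    by_cases h4 : ∀ x, ψ (α x) = ψ x
    · rw [if_pos h4, if_pos (funext h4), mul_one]
    · rw [if_neg h4, if_neg (fun h5 => h4 fun x => congrFun h5 x), mul_zero]
  have h2 : ∑ ψ ∈ Irr H, ∑ x : H, ψ (α x) * ψ x⁻¹ =
      (Nat.card {q : H × H // q.2 * α q.1 * q.2⁻¹ = q.1} : ℂ) := by
    rw [Finset.sum_comm]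
    have e1 : ∀ x : H, ∑ ψ ∈ Irr H, ψ (α x) * ψ x⁻¹ =
        (Nat.card {n : H // n * α x * n⁻¹ = x} : ℂ) := fun x => col_orth (α x) x
    rw [Finset.sum_congr rfl fun x _ => e1 x, ← Nat.cast_sum]
    congr 1
    have e2 : {q : H × H // q.2 * α q.1 * q.2⁻¹ = q.1} ≃
        Σ x : H, {n : H // n * α x * n⁻¹ = x} :=
      { toFun := fun q => ⟨q.1.1, ⟨q.1.2, q.2⟩⟩
        invFun := fun s => ⟨(s.1, s.2.1), s.2.2⟩
        left_inv := fun _ => rfl
        right_inv := fun _ => rfl }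
    rw [Nat.card_congr e2, Nat.card_sigma]
  rw [Finset.sum_congr rfl h1, ← Finset.sum_filter, Finset.sum_const, nsmul_eq_mul] at h2
  have h3 : Nat.card {ψ : H → ℂ // IsIrrChar ψ ∧ ∀ x, ψ (α x) = ψ x} =
      ((Irr H).filter (fun ψ => ∀ x, ψ (α x) = ψ x)).card := by
    have e : {ψ : H → ℂ // IsIrrChar ψ ∧ ∀ x, ψ (α x) = ψ x} ≃
        {ψ // ψ ∈ (Irr H).filter (fun ψ => ∀ x, ψ (α x) = ψ x)} :=
      Equiv.subtypeEquivRight fun ψ => by rw [Finset.mem_filter, mem_Irr]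
    rw [Nat.card_congr e, Nat.card_eq_fintype_card, Fintype.card_coe]
  rw [h3, mul_comm]
  exact_mod_cast h2

variable {E : Type} [Group E]

/-- `y` fixes the function `ψ` on `H` -/
def Fx (H : Subgroup E) (ψ : H → ℂ) (y : E) : Prop :=
  ∀ h h' : H, (h' : E) = y * h * y⁻¹ → ψ h' = ψ h

variable (G S : Subgroup E) [hG : G.Normal]

/-- conjugation by an element of `S` on `G ∩ S` -/
def cjS (y : E) (hy : y ∈ S) : (G ⊓ S : Subgroup E) ≃* (G ⊓ S : Subgroup E) where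
  toFun x := ⟨y * x * y⁻¹, hG.conj_mem _ x.2.1 y, S.mul_mem (S.mul_mem hy x.2.2) (S.inv_mem hy)⟩
  invFun x := ⟨y⁻¹ * x * y, by
    have h := hG.conj_mem _ x.2.1 y⁻¹
    rwa [inv_inv] at h, S.mul_mem (S.mul_mem (S.inv_mem hy) x.2.2) hy⟩
  left_inv x := Subtype.ext (by change y⁻¹ * (y * x * y⁻¹) * y = x; group)
  right_inv x := Subtype.ext (by change y * (y⁻¹ * x * y) * y⁻¹ = x; group)
  map_mul' a b := Subtype.ext (by
    change y * (a * b) * y⁻¹ = y * a * y⁻¹ * (y * b * y⁻¹)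
    group)

variable {G S}

lemma fx_iff {y : E} (hy : y ∈ S) (ψ : (G ⊓ S : Subgroup E) → ℂ) :
    Fx (G ⊓ S) ψ y ↔ ∀ x, ψ (cjS G S y hy x) = ψ x := by
  constructor
  · intro h x
    exact h x _ rfl
  · intro h x x' hx
    have : x' = cjS G S y hy x := Subtype.ext hx
    rw [this, h]

lemma fx_one (ψ : (G ⊓ S : Subgroup E) → ℂ) : Fx (G ⊓ S) ψ 1 := by
  intro h h' hh
  have : h' = h := Subtype.ext (by rw [hh]; group)
  rw [this]

lemma fx_mul {y z : E} (hz : z ∈ S) {ψ : (G ⊓ S : Subgroup E) → ℂ} (h1 : Fx (G ⊓ S) ψ y)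
    (h2 : Fx (G ⊓ S) ψ z) : Fx (G ⊓ S) ψ (y * z) := by
  intro h h' hh
  rw [← h2 h (cjS G S z hz h) rfl]
  apply h1
  rw [hh]
  change y * z * h * (y * z)⁻¹ = y * (z * h * z⁻¹) * y⁻¹
  group

lemma fx_inv {y : E} {ψ : (G ⊓ S : Subgroup E) → ℂ} (h1 : Fx (G ⊓ S) ψ y) :
    Fx (G ⊓ S) ψ y⁻¹ := by
  intro h h' hh
  symm
  apply h1
  rw [hh]
  group

/-- the stabiliser of `ψ` in `S` -/
def inert (G S : Subgroup E) [G.Normal] (ψ : (G ⊓ S : Subgroup E) → ℂ) : Subgroup E where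
  carrier := {y | y ∈ S ∧ Fx (G ⊓ S) ψ y}
  mul_mem' h1 h2 := ⟨S.mul_mem h1.1 h2.1, fx_mul h2.1 h1.2 h2.2⟩
  one_mem' := ⟨S.one_mem, fx_one ψ⟩
  inv_mem' h := ⟨S.inv_mem h.1, fx_inv h.2⟩

lemma mem_inert {ψ : (G ⊓ S : Subgroup E) → ℂ} {y : E} :
    y ∈ inert G S ψ ↔ y ∈ S ∧ Fx (G ⊓ S) ψ y := Iff.rfl

/-- elements of `G ∩ S` fix the class functions -/
lemma fx_inner {ψ : (G ⊓ S : Subgroup E) → ℂ} (hψ : IsClass ψ) {y : E}
    (hy : y ∈ G ⊓ S) : Fx (G ⊓ S) ψ y := by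
  intro h h' hh
  have := hψ h ⟨y, hy⟩
  rw [← this]
  congr 1
  exact Subtype.ext hh

/-- the number of the irreducible characters of `G ∩ S` fixed by an element of `S ∩ eG` -/
def aa (G S : Subgroup E) (e : E) : ℕ :=
  Nat.card {ψ : (G ⊓ S : Subgroup E) → ℂ // IsIrrChar ψ ∧
    ∃ y ∈ S, y * e⁻¹ ∈ G ∧ Fx (G ⊓ S) ψ y}

/-- **Counting** with commuting pairs. -/
theorem card_aa [Finite E] (e : E) :
    Nat.card (G ⊓ S : Subgroup E) * aa G S e =
      Nat.card {q : E × E // q.1 ∈ G ⊓ S ∧ (q.2 ∈ S ∧ q.2 * e⁻¹ ∈ G) ∧ q.2 * q.1 = q.1 * q.2} := by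
  have : Fintype (G ⊓ S : Subgroup E) := Fintype.ofFinite _
  by_cases hne : ∃ y ∈ S, y * e⁻¹ ∈ G
  · obtain ⟨y₀, hy₀, hy₀e⟩ := hne
    have h1 : aa G S e = Nat.card {ψ : (G ⊓ S : Subgroup E) → ℂ // IsIrrChar ψ ∧
        ∀ x, ψ (cjS G S y₀ hy₀ x) = ψ x} := by
      refine Nat.card_congr (Equiv.subtypeEquivRight fun ψ => ?_)
      refine and_congr_right fun hψ => ?_
      rw [← fx_iff hy₀]
      constructor
      · rintro ⟨y, hy, hye, hf⟩
        have h2 : y₀ = y₀ * y⁻¹ * y := by group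
        have h3 : y₀ * y⁻¹ ∈ G ⊓ S := by
          refine ⟨?_, S.mul_mem hy₀ (S.inv_mem hy)⟩
          have : y₀ * y⁻¹ = y₀ * e⁻¹ * (y * e⁻¹)⁻¹ := by group
          rw [this]
          exact G.mul_mem hy₀e (G.inv_mem hye)
        rw [h2]
        exact fx_mul hy (fx_inner hψ.isClass h3) hf
      · intro h
        exact ⟨y₀, hy₀, hy₀e, h⟩
    rw [h1, brauer]
    refine Nat.card_congr
      { toFun := fun q => ⟨((q.1.1 : E), (q.1.2 : E) * y₀), q.1.1.2, ⟨?_, ?_⟩, ?_⟩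
        invFun := fun t => ⟨(⟨t.1.1, t.2.1⟩, ⟨t.1.2 * y₀⁻¹, ?_⟩), ?_⟩
        left_inv := ?_
        right_inv := ?_ }
    · exact S.mul_mem q.1.2.2.2 hy₀
    · have : (q.1.2 : E) * y₀ * e⁻¹ = q.1.2 * (y₀ * e⁻¹) := by group
      change (q.1.2 : E) * y₀ * e⁻¹ ∈ G
      rw [this]
      exact G.mul_mem q.1.2.2.1 hy₀e
    · have h2 := congrArg Subtype.val q.2
      change (q.1.2 : E) * (y₀ * q.1.1 * y₀⁻¹) * (q.1.2 : E)⁻¹ = q.1.1 at h2
      change (q.1.2 : E) * y₀ * q.1.1 = q.1.1 * (q.1.2 * y₀)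
      conv_rhs => rw [← h2]
      group
    · refine ⟨?_, S.mul_mem t.2.2.1.1 (S.inv_mem hy₀)⟩
      have : t.1.2 * y₀⁻¹ = t.1.2 * e⁻¹ * (y₀ * e⁻¹)⁻¹ := by group
      rw [this]
      exact G.mul_mem t.2.2.1.2 (G.inv_mem hy₀e)
    · apply Subtype.ext
      change t.1.2 * y₀⁻¹ * (y₀ * t.1.1 * y₀⁻¹) * (t.1.2 * y₀⁻¹)⁻¹ = t.1.1
      have h2 := t.2.2.2
      calc t.1.2 * y₀⁻¹ * (y₀ * t.1.1 * y₀⁻¹) * (t.1.2 * y₀⁻¹)⁻¹ = t.1.2 * t.1.1 * t.1.2⁻¹ := by
            group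
        _ = t.1.1 := by rw [h2]; group
    · intro q
      apply Subtype.ext
      refine Prod.ext rfl (Subtype.ext ?_)
      change (q.1.2 : E) * y₀ * y₀⁻¹ = q.1.2
      group
    · intro t
      apply Subtype.ext
      refine Prod.ext rfl ?_
      change t.1.2 * y₀⁻¹ * y₀ = t.1.2
      group
  · have h1 : aa G S e = 0 := by
      unfold aa
      rw [Nat.card_eq_zero]
      left
      constructor
      rintro ⟨ψ, _, y, hy, hye, _⟩
      exact hne ⟨y, hy, hye⟩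
    rw [h1, mul_zero]
    symm
    rw [Nat.card_eq_zero]
    left
    constructor
    rintro ⟨q, _, ⟨hy, hye⟩, _⟩
    exact hne ⟨_, hy, hye⟩

/-- the number of the irreducible characters `ψ` of `G ∩ S` whose stabiliser in `S` has the image `U`
in `E / G` -/
def kU (G S : Subgroup E) [G.Normal] (U : Subgroup (E ⧸ G)) : ℕ :=
  Nat.card {ψ : (G ⊓ S : Subgroup E) → ℂ // IsIrrChar ψ ∧
    (inert G S ψ).map (QuotientGroup.mk' G) = U}

/-- all the stabilisers containing a given coset -/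
theorem aa_eq_sum [Finite E] [Fintype (Subgroup (E ⧸ G))] (e : E) :
    aa G S e = ∑ U ∈ Finset.univ.filter (fun U : Subgroup (E ⧸ G) => (e : E ⧸ G) ∈ U),
      kU G S U := by
  have : Fintype (G ⊓ S : Subgroup E) := Fintype.ofFinite _
  have h1 : aa G S e = ((Irr (G ⊓ S : Subgroup E)).filter (fun ψ =>
      (e : E ⧸ G) ∈ (inert G S ψ).map (QuotientGroup.mk' G))).card := by
    unfold aa
    have e1 : {ψ : (G ⊓ S : Subgroup E) → ℂ // IsIrrChar ψ ∧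
        ∃ y ∈ S, y * e⁻¹ ∈ G ∧ Fx (G ⊓ S) ψ y} ≃
        {ψ // ψ ∈ (Irr (G ⊓ S : Subgroup E)).filter (fun ψ =>
          (e : E ⧸ G) ∈ (inert G S ψ).map (QuotientGroup.mk' G))} :=
      Equiv.subtypeEquivRight fun ψ => by
        rw [Finset.mem_filter, mem_Irr]
        refine and_congr_right fun _ => ?_
        rw [Subgroup.mem_map]
        constructor
        · rintro ⟨y, hy, hye, hf⟩
          refine ⟨y, ⟨hy, hf⟩, ?_⟩
          change (y : E ⧸ G) = (e : E ⧸ G)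
          rw [QuotientGroup.eq]
          have h2 := hG.conj_mem _ (G.inv_mem hye) y⁻¹
          have e2 : y⁻¹ * (y * e⁻¹)⁻¹ * y⁻¹⁻¹ = y⁻¹ * e := by group
          rwa [e2] at h2
        · rintro ⟨y, ⟨hy, hf⟩, hye⟩
          refine ⟨y, hy, ?_, hf⟩
          change (y : E ⧸ G) = (e : E ⧸ G) at hye
          rw [QuotientGroup.eq] at hye
          have h2 := hG.conj_mem _ (G.inv_mem hye) y
          have e2 : y * (y⁻¹ * e)⁻¹ * y⁻¹ = y * e⁻¹ := by group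
          rwa [e2] at h2
    rw [Nat.card_congr e1, Nat.card_eq_fintype_card, Fintype.card_coe]
  have h2 : ∀ U : Subgroup (E ⧸ G), kU G S U = ((Irr (G ⊓ S : Subgroup E)).filter (fun ψ =>
      (inert G S ψ).map (QuotientGroup.mk' G) = U)).card := by
    intro U
    unfold kU
    have e1 : {ψ : (G ⊓ S : Subgroup E) → ℂ // IsIrrChar ψ ∧
        (inert G S ψ).map (QuotientGroup.mk' G) = U} ≃
        {ψ // ψ ∈ (Irr (G ⊓ S : Subgroup E)).filter (fun ψ =>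
          (inert G S ψ).map (QuotientGroup.mk' G) = U)} :=
      Equiv.subtypeEquivRight fun ψ => by rw [Finset.mem_filter, mem_Irr]
    rw [Nat.card_congr e1, Nat.card_eq_fintype_card, Fintype.card_coe]
  rw [h1, Finset.card_eq_sum_card_fiberwise
    (f := fun ψ => (inert G S ψ).map (QuotientGroup.mk' G))
    (t := Finset.univ.filter (fun U : Subgroup (E ⧸ G) => (e : E ⧸ G) ∈ U))]
  · refine Finset.sum_congr rfl fun U hU => ?_
    rw [h2]
    congr 1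
    ext ψ
    rw [Finset.mem_filter, Finset.mem_filter, Finset.mem_filter]
    constructor
    · rintro ⟨⟨h3, h4⟩, h5⟩
      exact ⟨h3, h5⟩
    · rintro ⟨h3, h4⟩
      exact ⟨⟨h3, by rw [h4]; exact (Finset.mem_filter.mp hU).2⟩, h4⟩
  · intro ψ hψ
    rw [Finset.mem_coe, Finset.mem_filter] at hψ ⊢
    exact ⟨Finset.mem_univ _, hψ.2⟩

end Pool.Agent.Q100.IV
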