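import Pool.Agent.Q100.IV.Split2
import Pool.Agent.Y63.NV.Pe

set_option autoImplicit false
set_option linter.unusedSectionVars false

/-!
# The count of Dade, Glauberman and Nagao for a cyclic `p`-quotient
-/

open scoped Classical BigOperators
open Pool.Agent.Helper884.IC Pool.Agent.Y63.KR
open Pool.Agent.Y63.AWC (numDefectZero numDefectZero_congr)
open Pool.Agent.Y63.NV (numInvDz locz dgn')

noncomputable section

namespace Pool.Agent.Q100.IV

section top

variable {Y : Type} [Group Y] [Finite Y] {X : Subgroup Y} [hX : X.Normal] {p : ℕ} [hp : Fact p.Prime]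
  {y₀ : Y} {a : ℕ}

lemma coset_iff {y y' : Y} : y * y'⁻¹ ∈ X ↔ (y : Y ⧸ X) = (y' : Y ⧸ X) := by
  rw [QuotientGroup.eq]
  constructor
  · intro h
    have h2 := hX.conj_mem _ (X.inv_mem h) y⁻¹
    have e2 : y⁻¹ * (y * y'⁻¹)⁻¹ * y⁻¹⁻¹ = y⁻¹ * y' := by group
    rwa [e2] at h2
  · intro h
    have h2 := hX.conj_mem _ (X.inv_mem h) y
    have e2 : y * (y⁻¹ * y')⁻¹ * y⁻¹ = y * y'⁻¹ := by group
    rwa [e2] at h2

lemma c_inf (h2 : orderOf (y₀ : Y ⧸ X) = p ^ a) {u : Y} (hu : u * y₀⁻¹ ∈ X)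
    (ho : orderOf u = p ^ a) : X ⊓ Subgroup.zpowers u = ⊥ := by
  rw [eq_bot_iff]
  rintro w ⟨hw1, hw2⟩
  obtain ⟨k, rfl⟩ := Subgroup.mem_zpowers_iff.mp hw2
  have h3 : (u : Y ⧸ X) ^ k = 1 := by
    rw [← QuotientGroup.mk_zpow]
    exact (QuotientGroup.eq_one_iff _).mpr hw1
  have h4 : orderOf (u : Y ⧸ X) = p ^ a := by rw [coset_iff.mp hu, h2]
  have h5 := orderOf_dvd_iff_zpow_eq_one.mpr h3
  rw [h4, ← ho] at h5
  exact orderOf_dvd_iff_zpow_eq_one.mp h5

lemma c_sup (h1 : Subgroup.zpowers (y₀ : Y ⧸ X) = ⊤) {u : Y} (hu : u * y₀⁻¹ ∈ X) :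
    ∀ y : Y, ∃ k : ℤ, y * (u ^ k)⁻¹ ∈ X := by
  intro y
  have h3 : (y : Y ⧸ X) ∈ Subgroup.zpowers (y₀ : Y ⧸ X) := by rw [h1]; trivial
  obtain ⟨k, hk⟩ := Subgroup.mem_zpowers_iff.mp h3
  refine ⟨k, ?_⟩
  rw [coset_iff, QuotientGroup.mk_zpow, coset_iff.mp hu, hk]

/-- the quotient of the normaliser of a complement -/
lemma c_iso (h1 : Subgroup.zpowers (y₀ : Y ⧸ X) = ⊤) (h2 : orderOf (y₀ : Y ⧸ X) = p ^ a) {u : Y}
    (hu : u * y₀⁻¹ ∈ X) (ho : orderOf u = p ^ a) :
    Nonempty (CG X u ≃* (Subgroup.normalizer ((Subgroup.zpowers u : Subgroup Y) : Set Y) ⧸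
      (Subgroup.zpowers u).subgroupOf
        (Subgroup.normalizer ((Subgroup.zpowers u : Subgroup Y) : Set Y)))) := by
  set R := Subgroup.zpowers u with hR
  have hinf := c_inf h2 hu ho
  have hle : CG X u ≤ Subgroup.normalizer (R : Set Y) := by
    intro x hx
    have h3 := (mem_CG.mp hx).2
    rw [← conjSub_eq_iff, hR]
    unfold conjSub
    rw [MonoidHom.map_zpowers]
    congr 1
    change x * u * x⁻¹ = u
    rw [← h3]; group
  let f : CG X u →* (Subgroup.normalizer (R : Set Y) ⧸ R.subgroupOf (Subgroup.normalizer (R : Set Y))) :=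
    (QuotientGroup.mk' _).comp (Subgroup.inclusion hle)
  refine ⟨MulEquiv.ofBijective f ⟨?_, ?_⟩⟩
  · rw [injective_iff_map_eq_one]
    intro x hx
    have h3 : (Subgroup.inclusion hle x) ∈ R.subgroupOf (Subgroup.normalizer (R : Set Y)) :=
      (QuotientGroup.eq_one_iff _).mp hx
    have h4 : (x : Y) ∈ X ⊓ R := ⟨(mem_CG.mp x.2).1, h3⟩
    rw [hinf] at h4
    exact Subtype.ext (Subgroup.mem_bot.mp h4)
  · intro q
    obtain ⟨n, rfl⟩ := QuotientGroup.mk_surjective q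
    obtain ⟨k, hk⟩ := c_sup h1 hu (n : Y)
    have huN : ∀ k : ℤ, u ^ k ∈ Subgroup.normalizer (R : Set Y) := fun k =>
      Subgroup.le_normalizer (Subgroup.zpow_mem _ (Subgroup.mem_zpowers u) k)
    set x := (n : Y) * (u ^ k)⁻¹ with hx
    have hxN : x ∈ Subgroup.normalizer (R : Set Y) :=
      Subgroup.mul_mem _ n.2 (Subgroup.inv_mem _ (huN k))
    have hxC : x ∈ CG X u := by
      refine mem_CG.mpr ⟨hk, ?_⟩
      have h3 : u * x * u⁻¹ * x⁻¹ ∈ X ⊓ R := by
        constructor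
        · exact X.mul_mem (hX.conj_mem _ hk u) (X.inv_mem hk)
        · have e1 : u * x * u⁻¹ * x⁻¹ = u * (x * u⁻¹ * x⁻¹) := by group
          rw [e1]
          refine R.mul_mem (Subgroup.mem_zpowers u) ?_
          exact (Subgroup.mem_normalizer_iff.mp hxN _).mp (R.inv_mem (Subgroup.mem_zpowers u))
      rw [hinf, Subgroup.mem_bot] at h3
      calc u * x = u * x * u⁻¹ * x⁻¹ * (x * u) := by group
        _ = x * u := by rw [h3, one_mul]
    refine ⟨⟨x, hxC⟩, ?_⟩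
    change (QuotientGroup.mk (Subgroup.inclusion hle ⟨x, hxC⟩) : _ ⧸ _) = QuotientGroup.mk n
    rw [QuotientGroup.eq]
    change x⁻¹ * (n : Y) ∈ R
    have e1 : x⁻¹ * (n : Y) = u ^ k * (n : Y)⁻¹ * n := by rw [hx]; group
    rw [e1]
    have e2 : u ^ k * (n : Y)⁻¹ * n = u ^ k := by group
    rw [e2]
    exact Subgroup.zpow_mem _ (Subgroup.mem_zpowers u) k

/-- **The count of Dade, Glauberman and Nagao** for a cyclic `p`-quotient -/
theorem dgn_cyclic [Fintype Y] (h1 : Subgroup.zpowers (y₀ : Y ⧸ X) = ⊤)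
    (h2 : orderOf (y₀ : Y ⧸ X) = p ^ a) :
    Nat.card X * numInvDz p X =
      ∑ u ∈ Finset.univ.filter (fun u : Y => u * y₀⁻¹ ∈ X ∧ orderOf u = p ^ a),
        Nat.card (CG X u) * numDefectZero p (CG X u) := by
  have : Fintype (Subgroup Y) := Fintype.ofFinite _
  have hP : IsPGroup p (Y ⧸ X) := by
    intro q
    have h3 : q ∈ Subgroup.zpowers (y₀ : Y ⧸ X) := by rw [h1]; trivial
    obtain ⟨k, hk⟩ := Subgroup.mem_zpowers_iff.mp h3
    refine ⟨a, ?_⟩
    rw [← hk, ← zpow_natCast, ← zpow_mul, mul_comm, zpow_mul, zpow_natCast, ← h2,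
      pow_orderOf_eq_one, one_zpow]
  have key := dgn' p Y X hP
  have hcard : Nat.card Y = p ^ a * Nat.card X := by
    rw [Subgroup.card_eq_card_quotient_mul_card_subgroup X]
    congr 1
    rw [← h2, ← Nat.card_zpowers, h1, Subgroup.card_top]
  have hp0 : 0 < p ^ a := pow_pos hp.out.pos a
  rw [hcard, mul_assoc, finsum_eq_sum_of_fintype, ← Finset.sum_filter] at key
  apply Nat.eq_of_mul_eq_mul_left hp0
  rw [key, Finset.mul_sum]
  symm
  refine Finset.sum_bij (fun u _ => Subgroup.zpowers u) ?_ ?_ ?_ ?_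
  · intro u hu
    rw [Finset.mem_filter] at hu
    rw [Finset.mem_filter]
    refine ⟨Finset.mem_univ _, ?_, ?_, c_inf h2 hu.2.1 hu.2.2⟩
    · apply IsPGroup.of_card (n := a)
      rw [Nat.card_zpowers, hu.2.2]
    · rw [eq_top_iff]
      intro y _
      obtain ⟨k, hk⟩ := c_sup h1 hu.2.1 y
      have e1 : y = y * (u ^ k)⁻¹ * u ^ k := by group
      rw [e1]
      exact Subgroup.mul_mem _ (Subgroup.mem_sup_left hk)
        (Subgroup.mem_sup_right (Subgroup.zpow_mem _ (Subgroup.mem_zpowers u) k))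
  · intro u hu u' hu' h
    rw [Finset.mem_filter] at hu hu'
    have h3 : u' ∈ Subgroup.zpowers u := by
      change Subgroup.zpowers u = Subgroup.zpowers u' at h
      rw [h]; exact Subgroup.mem_zpowers u'
    have h4 : u' * u⁻¹ ∈ X ⊓ Subgroup.zpowers u := by
      refine ⟨?_, Subgroup.mul_mem _ h3 (Subgroup.inv_mem _ (Subgroup.mem_zpowers u))⟩
      exact coset_iff.mpr ((coset_iff.mp hu'.2.1).trans (coset_iff.mp hu.2.1).symm)
    rw [c_inf h2 hu.2.1 hu.2.2, Subgroup.mem_bot] at h4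
    exact (mul_inv_eq_one.mp h4).symm
  · intro R hR
    rw [Finset.mem_filter] at hR
    obtain ⟨-, hR1, hR2, hR3⟩ := hR
    have h3 : y₀ ∈ X ⊔ R := by rw [hR2]; trivial
    obtain ⟨x, hx, r, hr, hxr⟩ := Subgroup.mem_sup_of_normal_left.mp h3
    have hrc : r * y₀⁻¹ ∈ X := by
      rw [coset_iff, ← hxr, QuotientGroup.mk_mul, (QuotientGroup.eq_one_iff x).mpr hx, one_mul]
    have hinj : ∀ s ∈ R, (s : Y ⧸ X) = 1 → s = 1 := by
      intro s hs h
      have h5 : s ∈ X ⊓ R := ⟨(QuotientGroup.eq_one_iff s).mp h, hs⟩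
      rw [hR3] at h5
      exact Subgroup.mem_bot.mp h5
    have hro : orderOf r = p ^ a := by
      have h4 : orderOf (r : Y ⧸ X) = p ^ a := by rw [coset_iff.mp hrc, h2]
      apply Nat.dvd_antisymm
      · apply orderOf_dvd_of_pow_eq_one
        apply hinj _ (R.pow_mem hr _)
        rw [QuotientGroup.mk_pow, ← h4, pow_orderOf_eq_one]
      · rw [← h4]
        exact orderOf_map_dvd (QuotientGroup.mk' X) r
    refine ⟨r, by rw [Finset.mem_filter]; exact ⟨Finset.mem_univ _, hrc, hro⟩, ?_⟩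
    apply le_antisymm
    · rw [Subgroup.zpowers_le]; exact hr
    · intro s hs
      obtain ⟨k, hk⟩ := c_sup h1 hrc s
      have h5 : s * (r ^ k)⁻¹ ∈ X ⊓ R := ⟨hk, R.mul_mem hs (R.inv_mem (R.zpow_mem hr k))⟩
      rw [hR3, Subgroup.mem_bot] at h5
      rw [mul_inv_eq_one.mp h5]
      exact Subgroup.zpow_mem _ (Subgroup.mem_zpowers r) k
  · intro u hu
    rw [Finset.mem_filter] at hu
    obtain ⟨e⟩ := c_iso h1 h2 hu.2.1 hu.2.2
    have h3 : locz p (Subgroup.zpowers u) = numDefectZero p (CG X u) := (numDefectZero_congr e).symm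
    have h4 : Nat.card (Subgroup.normalizer ((Subgroup.zpowers u : Subgroup Y) : Set Y)) =
        Nat.card (CG X u) * p ^ a := by
      rw [Subgroup.card_eq_card_quotient_mul_card_subgroup ((Subgroup.zpowers u).subgroupOf
        (Subgroup.normalizer ((Subgroup.zpowers u : Subgroup Y) : Set Y))), Nat.card_congr e.toEquiv]
      congr 1
      rw [Nat.card_congr (Subgroup.subgroupOfEquivOfLe Subgroup.le_normalizer).toEquiv,
        Nat.card_zpowers, hu.2.2]
    rw [h3, h4]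
    ring

end top

end Pool.Agent.Q100.IV
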