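import Pool.Agent.Q100.IV.Dgn

set_option autoImplicit false
set_option linter.unusedSectionVars false

/-!
# The split case: the final identities
-/

open scoped Classical BigOperators
open Pool.Agent.Helper884.IC Pool.Agent.Y63.KR
open Pool.Agent.Y63.AWC (numDefectZero numDefectZero_congr irr_comp)
open Pool.Agent.Y63.NV (numInvDz)

noncomputable section

namespace Pool.Agent.Q100.IV

variable {E : Type} [Group E] {p : ℕ}

/-- `χ(1)_p = |H|_p` -/
def DZ (p : ℕ) {H : Type} [Group H] (χ : H → ℂ) : Prop :=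
  ∃ n : ℕ, χ 1 = (n : ℂ) ∧ n.factorization p = (Nat.card H).factorization p

/-- the irreducible characters of `G` of `p`-defect zero invariant under the coset `eG` -/
def zinv (p : ℕ) (G : Subgroup E) [G.Normal] (e : E) : ℕ :=
  Nat.card {ψ : (G ⊓ ⊤ : Subgroup E) → ℂ // IsIrrChar ψ ∧ DZ p ψ ∧
    (e : E ⧸ G) ∈ (inert G ⊤ ψ).map (QuotientGroup.mk' G)}

/-- the irreducible characters of `G` of `p`-defect zero with stabiliser `U` -/
def zU (p : ℕ) (G : Subgroup E) [G.Normal] (U : Subgroup (E ⧸ G)) : ℕ :=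
  Nat.card {ψ : (G ⊓ ⊤ : Subgroup E) → ℂ // IsIrrChar ψ ∧ DZ p ψ ∧
    (inert G ⊤ ψ).map (QuotientGroup.mk' G) = U}

variable {G : Subgroup E} [hG : G.Normal]

theorem zinv_eq_sum [Finite E] [Fintype (Subgroup (E ⧸ G))] (e : E) :
    zinv p G e = ∑ U ∈ Finset.univ.filter (fun U : Subgroup (E ⧸ G) => (e : E ⧸ G) ∈ U),
      zU p G U := by
  have : Fintype (G ⊓ ⊤ : Subgroup E) := Fintype.ofFinite _
  have h1 : zinv p G e = ((Irr (G ⊓ ⊤ : Subgroup E)).filter (fun ψ => DZ p ψ ∧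
      (e : E ⧸ G) ∈ (inert G ⊤ ψ).map (QuotientGroup.mk' G))).card := by
    unfold zinv
    have e1 : {ψ : (G ⊓ ⊤ : Subgroup E) → ℂ // IsIrrChar ψ ∧ DZ p ψ ∧
        (e : E ⧸ G) ∈ (inert G ⊤ ψ).map (QuotientGroup.mk' G)} ≃
        {ψ // ψ ∈ (Irr (G ⊓ ⊤ : Subgroup E)).filter (fun ψ => DZ p ψ ∧
          (e : E ⧸ G) ∈ (inert G ⊤ ψ).map (QuotientGroup.mk' G))} :=
      Equiv.subtypeEquivRight fun ψ => by rw [Finset.mem_filter, mem_Irr]
    rw [Nat.card_congr e1, Nat.card_eq_fintype_card, Fintype.card_coe]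
  have h2 : ∀ U : Subgroup (E ⧸ G), zU p G U = ((Irr (G ⊓ ⊤ : Subgroup E)).filter (fun ψ =>
      DZ p ψ ∧ (inert G ⊤ ψ).map (QuotientGroup.mk' G) = U)).card := by
    intro U
    unfold zU
    have e1 : {ψ : (G ⊓ ⊤ : Subgroup E) → ℂ // IsIrrChar ψ ∧ DZ p ψ ∧
        (inert G ⊤ ψ).map (QuotientGroup.mk' G) = U} ≃
        {ψ // ψ ∈ (Irr (G ⊓ ⊤ : Subgroup E)).filter (fun ψ => DZ p ψ ∧
          (inert G ⊤ ψ).map (QuotientGroup.mk' G) = U)} :=
      Equiv.subtypeEquivRight fun ψ => by rw [Finset.mem_filter, mem_Irr]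
    rw [Nat.card_congr e1, Nat.card_eq_fintype_card, Fintype.card_coe]
  rw [h1, Finset.card_eq_sum_card_fiberwise
    (f := fun ψ => (inert G ⊤ ψ).map (QuotientGroup.mk' G))
    (t := Finset.univ.filter (fun U : Subgroup (E ⧸ G) => (e : E ⧸ G) ∈ U))]
  · refine Finset.sum_congr rfl fun U hU => ?_
    rw [h2]
    congr 1
    ext ψ
    rw [Finset.mem_filter, Finset.mem_filter, Finset.mem_filter]
    constructor
    · rintro ⟨⟨h3, h4, h6⟩, h5⟩
      exact ⟨h3, h4, h5⟩
    · rintro ⟨h3, h6, h4⟩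
      exact ⟨⟨h3, h6, by rw [h4]; exact (Finset.mem_filter.mp hU).2⟩, h4⟩
  · intro ψ hψ
    rw [Finset.mem_coe, Finset.mem_filter] at hψ ⊢
    exact ⟨Finset.mem_univ _, hψ.2.2⟩

/-- the preimage of `⟨eG⟩` -/
def Vv (G : Subgroup E) [G.Normal] (e : E) : Subgroup E :=
  (Subgroup.zpowers (e : E ⧸ G)).comap (QuotientGroup.mk' G)

lemma mem_Vv {e y : E} : y ∈ Vv G e ↔ (y : E ⧸ G) ∈ Subgroup.zpowers (e : E ⧸ G) := Iff.rfl

lemma le_Vv (e : E) : G ≤ Vv G e := by
  intro x hx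
  rw [mem_Vv, (QuotientGroup.eq_one_iff x).mpr hx]
  exact Subgroup.one_mem _

lemma self_Vv (e : E) : e ∈ Vv G e := mem_Vv.mpr (Subgroup.mem_zpowers _)

/-- the isomorphism of the two versions of `G` -/
def isoG (G : Subgroup E) [G.Normal] (e : E) :
    (G ⊓ ⊤ : Subgroup E) ≃* (G.subgroupOf (Vv G e)) where
  toFun x := ⟨⟨x, le_Vv e x.2.1⟩, x.2.1⟩
  invFun x := ⟨x.1.1, x.2, Subgroup.mem_top _⟩
  left_inv _ := rfl
  right_inv _ := rfl
  map_mul' _ _ := rfl

lemma card_isoG [Finite E] (e : E) :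
    Nat.card (G.subgroupOf (Vv G e)) = Nat.card (G ⊓ ⊤ : Subgroup E) :=
  (Nat.card_congr (isoG G e).toEquiv).symm

theorem zinv_eq [Finite E] (e : E) : zinv p G e = numInvDz p (G.subgroupOf (Vv G e)) := by
  unfold zinv numInvDz
  have hcl : ∀ {H : Type} [Group H] {χ : H → ℂ}, [Finite H] → IsIrrChar χ → IsClass χ := by
    intro H _ χ _ h
    have : Fintype H := Fintype.ofFinite H
    exact h.isClass
  refine Nat.card_congr
    { toFun := fun ψ => ⟨fun x => ψ.1 ((isoG G e).symm x), irr_comp (isoG G e).symm ψ.2.1, ?_, ?_⟩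
      invFun := fun χ => ⟨fun x => χ.1 (isoG G e x), irr_comp (isoG G e) χ.2.1, ?_, ?_⟩
      left_inv := fun ψ => Subtype.ext (funext fun x => by simp)
      right_inv := fun χ => Subtype.ext (funext fun x => by simp) }
  · obtain ⟨n, h1, h2⟩ := ψ.2.2.1
    exact ⟨n, by
      change ψ.1 ((isoG G e).symm 1) = _
      rw [map_one, h1], by rw [h2, card_isoG]⟩
  · intro y a b hb
    have h3 : Vv G e ≤ inert G ⊤ ψ.1 := by
      obtain ⟨y₀, hy₀, hye⟩ := ψ.2.2.2
      change (y₀ : E ⧸ G) = (e : E ⧸ G) at hye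
      intro v hv
      rw [mem_Vv, ← hye] at hv
      obtain ⟨k, hk⟩ := Subgroup.mem_zpowers_iff.mp hv
      have h4 : v * (y₀ ^ k)⁻¹ ∈ G := by rw [coset_iff, QuotientGroup.mk_zpow, hk]
      have e1 : v = v * (y₀ ^ k)⁻¹ * y₀ ^ k := by group
      rw [e1]
      refine Subgroup.mul_mem _ ?_ (Subgroup.zpow_mem _ hy₀ k)
      exact ⟨Subgroup.mem_top _, fx_inner (hcl ψ.2.1) ⟨h4, Subgroup.mem_top _⟩⟩
    have h4 := (h3 y.2).2
    apply h4
    exact congrArg Subtype.val hb
  · obtain ⟨n, h1, h2⟩ := χ.2.2.1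
    exact ⟨n, by
      change χ.1 (isoG G e 1) = _
      rw [map_one, h1], by rw [h2, card_isoG]⟩
  · refine ⟨e, ⟨Subgroup.mem_top _, ?_⟩, rfl⟩
    intro h h' hh
    refine χ.2.2.2 ⟨e, self_Vv e⟩ (isoG G e h) (isoG G e h') ?_
    exact Subtype.ext hh

/-- the isomorphism of the centralisers -/
def isoC (e : E) (u : Vv G e) : CG (G.subgroupOf (Vv G e)) u ≃* CG G (u : E) where
  toFun x := ⟨x.1.1, mem_CG.mpr ⟨(mem_CG.mp x.2).1, congrArg Subtype.val (mem_CG.mp x.2).2⟩⟩
  invFun x := ⟨⟨x.1, le_Vv e (mem_CG.mp x.2).1⟩,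
    mem_CG.mpr ⟨(mem_CG.mp x.2).1, Subtype.ext (mem_CG.mp x.2).2⟩⟩
  left_inv _ := rfl
  right_inv _ := rfl
  map_mul' _ _ := rfl

/-- **The count of the invariant characters of defect zero.** -/
theorem dz_split [hp : Fact p.Prime] [Finite E] [Fintype E] {e : E} {a : ℕ}
    (he : orderOf (e : E ⧸ G) = p ^ a) :
    Nat.card G * zinv p G e =
      ∑ u ∈ Finset.univ.filter (fun u : E => u * e⁻¹ ∈ G ∧ orderOf u = p ^ a),
        Nat.card (CG G u) * numDefectZero p (CG G u) := by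
  have : Fintype (Vv G e) := Fintype.ofFinite _
  have key := dgn_cyclic (p := p) (Y := Vv G e) (X := G.subgroupOf (Vv G e))
    (y₀ := ⟨e, self_Vv e⟩) (a := a) ?_ ?_
  · rw [← zinv_eq, card_isoG, inf_top_eq] at key
    rw [key]
    refine Finset.sum_bij (fun u _ => (u : E)) ?_ ?_ ?_ ?_
    · intro u hu
      rw [Finset.mem_filter] at hu ⊢
      refine ⟨Finset.mem_univ _, hu.2.1, ?_⟩
      rw [Subgroup.orderOf_coe]
      exact hu.2.2
    · intro u _ u' _ h
      exact Subtype.ext h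
    · intro u hu
      rw [Finset.mem_filter] at hu
      have huV : u ∈ Vv G e := by
        rw [mem_Vv, coset_iff.mp hu.2.1]
        exact Subgroup.mem_zpowers _
      refine ⟨⟨u, huV⟩, ?_, rfl⟩
      rw [Finset.mem_filter]
      refine ⟨Finset.mem_univ _, hu.2.1, ?_⟩
      rw [← Subgroup.orderOf_coe]
      exact hu.2.2
    · intro u _
      rw [Nat.card_congr (isoC e u).toEquiv, numDefectZero_congr (isoC e u)]
  · rw [eq_top_iff]
    intro q _
    obtain ⟨y, rfl⟩ := QuotientGroup.mk_surjective q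
    obtain ⟨k, hk⟩ := Subgroup.mem_zpowers_iff.mp (mem_Vv.mp y.2)
    rw [Subgroup.mem_zpowers_iff]
    refine ⟨k, ?_⟩
    rw [← QuotientGroup.mk_zpow]
    symm
    rw [← coset_iff]
    change (y : E) * ((e ^ k : E))⁻¹ ∈ G
    rw [coset_iff, QuotientGroup.mk_zpow, hk]
  · rw [← he]
    refine orderOf_eq_orderOf_iff.mpr fun n => ?_
    rw [← QuotientGroup.mk_pow, ← QuotientGroup.mk_pow, QuotientGroup.eq_one_iff,
      QuotientGroup.eq_one_iff]
    exact Iff.rfl

/-- **Main identity**, the difference of the two sides -/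
theorem diff_split [hp : Fact p.Prime] [Finite E] [Fintype E] (hO : Op p G = ⊥) {e : E} {a : ℕ}
    (he : orderOf (e : E ⧸ G) = p ^ a) :
    (Nat.card G : ℤ) * (radSum p G (fun S => (aa G S e : ℤ)) - (zinv p G e : ℤ)) =
      ∑ u ∈ Finset.univ.filter (fun u : E => u * e⁻¹ ∈ G ∧ orderOf u = p ^ a),
        (Nat.card (CG G u) : ℤ) *
          (alternatingSum p (CG G u) (fun H => (Nat.card (ConjClasses H) : ℤ)) -
            (numDefectZero p (CG G u) : ℤ)) := by
  have h1 := radSum_split hO he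
  have h2 := congrArg (Nat.cast : ℕ → ℤ) (dz_split (p := p) (G := G) he)
  push_cast at h2
  rw [mul_sub, h1, h2, ← Finset.sum_sub_distrib]
  refine Finset.sum_congr rfl fun u _ => ?_
  ring

/-- **Cyclic `p`-quotients.** -/
theorem cyclic_split [hp : Fact p.Prime] [Finite E] (hO : Op p G = ⊥) (hcyc : IsCyclic (E ⧸ G))
    (hpg : IsPGroup p (E ⧸ G))
    (hK : ∀ u : E, orderOf u = orderOf (u : E ⧸ G) →
      alternatingSum p (CG G u) (fun H => (Nat.card (ConjClasses H) : ℤ)) =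
        (numDefectZero p (CG G u) : ℤ)) (U : Subgroup (E ⧸ G)) :
    radSum p G (fun S => (kU G S U : ℤ)) = (zU p G U : ℤ) := by
  have : Fintype (Subgroup (E ⧸ G)) := Fintype.ofFinite _
  have : Fintype E := Fintype.ofFinite _
  have hone : ∀ e : E, radSum p G (fun S => (aa G S e : ℤ)) = (zinv p G e : ℤ) := by
    intro e
    obtain ⟨a, ha⟩ := IsPGroup.iff_orderOf.mp hpg (e : E ⧸ G)
    have h1 := diff_split (p := p) hO ha
    rw [Finset.sum_eq_zero] at h1
    · rcases mul_eq_zero.mp h1 with h2 | h2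
      · exact absurd h2 (by exact_mod_cast Nat.card_pos.ne')
      · exact sub_eq_zero.mp h2
    · intro u hu
      rw [Finset.mem_filter] at hu
      rw [hK u (by rw [hu.2.2, coset_iff.mp hu.2.1, ha]), sub_self, mul_zero]
  suffices h : ∀ (n : ℕ) (V : Subgroup (E ⧸ G)), V.index ≤ n →
      radSum p G (fun S => (kU G S V : ℤ)) = (zU p G V : ℤ) from h U.index U le_rfl
  intro n
  induction n with
  | zero =>
    intro V hV
    have : V.index ≠ 0 := V.index_ne_zero_of_finite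
    omega
  | succ n ih =>
    intro V hV
    obtain ⟨v, hv⟩ := IsCyclic.exists_generator (α := V)
    obtain ⟨e, he⟩ := QuotientGroup.mk_surjective (v : E ⧸ G)
    have hVe : V = Subgroup.zpowers (e : E ⧸ G) := by
      apply le_antisymm
      · intro x hx
        obtain ⟨k, hk⟩ := Subgroup.mem_zpowers_iff.mp (hv ⟨x, hx⟩)
        rw [Subgroup.mem_zpowers_iff]
        refine ⟨k, ?_⟩
        rw [he]
        exact congrArg Subtype.val hk
      · rw [Subgroup.zpowers_le, he]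
        exact v.2
    have h1 := hone e
    have h2 : (fun S => (aa G S e : ℤ)) = fun S => ∑ W ∈ Finset.univ.filter
        (fun W : Subgroup (E ⧸ G) => (e : E ⧸ G) ∈ W), (kU G S W : ℤ) := by
      funext S
      rw [aa_eq_sum]
      push_cast
      rfl
    have h3 : (zinv p G e : ℤ) = ∑ W ∈ Finset.univ.filter
        (fun W : Subgroup (E ⧸ G) => (e : E ⧸ G) ∈ W), (zU p G W : ℤ) := by
      rw [zinv_eq_sum]
      push_cast
      rfl
    have hVmem : V ∈ Finset.univ.filter (fun W : Subgroup (E ⧸ G) => (e : E ⧸ G) ∈ W) := by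
      rw [Finset.mem_filter, hVe]
      exact ⟨Finset.mem_univ _, Subgroup.mem_zpowers _⟩
    rw [h2, radSum_sum, h3, ← Finset.add_sum_erase _ _ hVmem, ← Finset.add_sum_erase _ _ hVmem] at h1
    have h4 : ∑ W ∈ (Finset.univ.filter (fun W : Subgroup (E ⧸ G) => (e : E ⧸ G) ∈ W)).erase V,
        radSum p G (fun S => (kU G S W : ℤ)) =
        ∑ W ∈ (Finset.univ.filter (fun W : Subgroup (E ⧸ G) => (e : E ⧸ G) ∈ W)).erase V,
          (zU p G W : ℤ) := by
      refine Finset.sum_congr rfl fun W hW => ?_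
      rw [Finset.mem_erase, Finset.mem_filter] at hW
      have h5 : V ≤ W := by
        rw [hVe, Subgroup.zpowers_le]
        exact hW.2.2
      have h6 : W.index < V.index := Subgroup.index_strictAnti (lt_of_le_of_ne h5 (Ne.symm hW.1))
      exact ih W (by omega)
    rw [h4] at h1
    exact add_right_cancel h1

end Pool.Agent.Q100.IV
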