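import Pool.Agent.Q100.IV.Count

set_option autoImplicit false
set_option linter.unusedSectionVars false

/-!
# Alternating sums over radical chains of the numbers of invariant characters
-/

open scoped Classical BigOperators
open Pool.Agent.Helper884.IC Pool.Agent.Y63.KR

noncomputable section

namespace Pool.Agent.Q100.IV

variable {E : Type} [Group E] {p : ℕ}

/-- `P` is the largest normal `p`-subgroup of `H` -/
def IsOp (p : ℕ) (H P : Subgroup E) : Prop :=
  (P ≤ H ∧ IsPGroup p P ∧ ∀ h ∈ H, conjSub h P = P) ∧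
    ∀ Q : Subgroup E, Q ≤ H → IsPGroup p Q → (∀ h ∈ H, conjSub h Q = Q) → Q ≤ P

lemma isOp_iff [Fact p.Prime] [Finite E] {H P : Subgroup E} : IsOp p H P ↔ Op p H = P := by
  constructor
  · rintro ⟨⟨h1, h2, h3⟩, h4⟩
    have h5 := op_np (p := p) H
    exact le_antisymm (h4 _ h5.le h5.pg h5.nrm) (le_op ⟨h1, h2, h3⟩)
  · rintro rfl
    have h5 := op_np (p := p) H
    exact ⟨⟨h5.le, h5.pg, h5.nrm⟩, fun Q h1 h2 h3 => le_op ⟨h1, h2, h3⟩⟩

/-- `σ = {P_1, …, P_n}`, where `1 = P_0 < P_1 < ⋯ < P_n` is a radical `p`-chain of `G`: a chain of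
nontrivial `p`-subgroups of `G` such that `P_k = O_p(N_G(P_1) ∩ ⋯ ∩ N_G(P_k))` for all `k`. -/
structure IsRadChain (p : ℕ) (G : Subgroup E) (σ : Set (Subgroup E)) : Prop where
  chain : IsChain (· ≤ ·) σ
  isPGroup : ∀ P ∈ σ, IsPGroup p P
  le : ∀ P ∈ σ, P ≤ G
  ne_bot : ∀ P ∈ σ, P ≠ ⊥
  radical : ∀ P ∈ σ, IsOp p (G ⊓ chainStabilizer {Q : Subgroup E | Q ∈ σ ∧ Q ≤ P}) P

lemma conj_normal {G : Subgroup E} [hG : G.Normal] (g : E) : conjSub g G = G := by
  ext x
  rw [mem_conjSub]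
  constructor
  · intro h
    have h1 := hG.conj_mem _ h g
    have e : g * (g⁻¹ * x * g) * g⁻¹ = x := by group
    rwa [e] at h1
  · intro h
    have h1 := hG.conj_mem _ h g⁻¹
    rwa [inv_inv] at h1

lemma isOp_conj {H P : Subgroup E} (h : IsOp p H P) (g : E) : IsOp p (conjSub g H) (conjSub g P) := by
  have key : ∀ (g : E) (H Q : Subgroup E), (∀ h ∈ H, conjSub h Q = Q) →
      ∀ h ∈ conjSub g H, conjSub h (conjSub g Q) = conjSub g Q := by
    intro g H Q hQ h hh
    rw [mem_conjSub] at hh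
    calc conjSub h (conjSub g Q) = conjSub g (conjSub (g⁻¹ * h * g) Q) := by
          rw [← conjSub_mul, ← conjSub_mul]; congr 1; group
      _ = conjSub g Q := by rw [hQ _ hh]
  refine ⟨⟨conjSub_le h.1.1, h.1.2.1.map _, key g H P h.1.2.2⟩, fun Q h1 h2 h3 => ?_⟩
  have h4 := h.2 (conjSub g⁻¹ Q) (by
    have := conjSub_le (g := g⁻¹) h1
    rwa [conjSub_inv_conjSub] at this) (h2.map _) (by
    have := key g⁻¹ (conjSub g H) Q h3
    rwa [conjSub_inv_conjSub] at this)
  have h5 := conjSub_le (g := g) h4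
  rwa [conjSub_conjSub_inv] at h5

lemma IsRadChain.conj {G : Subgroup E} [G.Normal] {σ : Set (Subgroup E)} (h : IsRadChain p G σ)
    (g : E) : IsRadChain p G (conjSub g '' σ) := by
  refine ⟨?_, ?_, ?_, ?_, ?_⟩
  · rintro _ ⟨P, hP, rfl⟩ _ ⟨Q, hQ, rfl⟩ _
    rcases h.chain.total hP hQ with h1 | h1
    · exact Or.inl (conjSub_le h1)
    · exact Or.inr (conjSub_le h1)
  · rintro _ ⟨P, hP, rfl⟩
    exact (h.isPGroup P hP).map _
  · rintro _ ⟨P, hP, rfl⟩
    have := conjSub_le (g := g) (h.le P hP)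
    rwa [conj_normal (G := G)] at this
  · rintro _ ⟨P, hP, rfl⟩
    exact conjSub_ne_bot (h.ne_bot P hP)
  · rintro _ ⟨P, hP, rfl⟩
    have h1 := isOp_conj (h.radical P hP) g
    have e : {Q : Subgroup E | Q ∈ conjSub g '' σ ∧ Q ≤ conjSub g P} =
        conjSub g '' {Q : Subgroup E | Q ∈ σ ∧ Q ≤ P} := by
      ext Q
      constructor
      · rintro ⟨⟨R, hR, rfl⟩, hle⟩
        refine ⟨R, ⟨hR, ?_⟩, rfl⟩
        have := conjSub_le (g := g⁻¹) hle
        rwa [conjSub_inv_conjSub, conjSub_inv_conjSub] at this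
      · rintro ⟨R, ⟨hR, hle⟩, rfl⟩
        exact ⟨⟨R, hR, rfl⟩, conjSub_le hle⟩
    rw [e, chainStabilizer_conj]
    rwa [conjSub_inf, conj_normal (G := G)] at h1

/-- conjugacy of radical chains under `G` -/
def radSetoid (p : ℕ) (G : Subgroup E) : Setoid {σ : Set (Subgroup E) // IsRadChain p G σ} where
  r σ τ := ∃ g ∈ G, τ.1 = conjSub g '' σ.1
  iseqv :=
  { refl := fun σ => ⟨1, G.one_mem, by
      have : (conjSub (1 : E)) = id := funext conjSub_one
      rw [this, Set.image_id]⟩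
    symm := by
      rintro σ τ ⟨g, hg, h⟩
      refine ⟨g⁻¹, G.inv_mem hg, ?_⟩
      rw [h, ← Set.image_comp]
      have : conjSub g⁻¹ ∘ conjSub g = id := funext fun P => by
        rw [Function.comp_apply, ← conjSub_mul, inv_mul_cancel, conjSub_one, id]
      rw [this, Set.image_id]
    trans := by
      rintro σ τ υ ⟨g, hg, h⟩ ⟨g', hg', h'⟩
      refine ⟨g' * g, G.mul_mem hg' hg, ?_⟩
      rw [h', h, ← Set.image_comp]
      congr 1
      exact (funext fun P => conjSub_mul g' g P).symm }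

/-- The alternating sum `∑_C (-1)^|C| f(N_E(C))` over representatives `C` of the `G`-classes of radical
`p`-chains of `G`. -/
def radSum (p : ℕ) (G : Subgroup E) (f : Subgroup E → ℤ) : ℤ :=
  ∑ᶠ c : Quotient (radSetoid p G), (-1) ^ c.out.1.ncard * f (chainStabilizer c.out.1)

variable {G : Subgroup E} [hG : G.Normal]

theorem card_mul_radSum [Finite E] (f : Subgroup E → ℤ)
    (hf : ∀ g ∈ G, ∀ S : Subgroup E, f (conjSub g S) = f S)
    [Fintype {σ : Set (Subgroup E) // IsRadChain p G σ}] :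
    (Nat.card G : ℤ) * radSum p G f =
      ∑ σ : {σ : Set (Subgroup E) // IsRadChain p G σ},
        (-1) ^ σ.1.ncard * ((Nat.card (G ⊓ chainStabilizer σ.1 : Subgroup E) : ℤ) *
          f (chainStabilizer σ.1)) := by
  let _ : MulAction G {σ : Set (Subgroup E) // IsRadChain p G σ} :=
    { smul := fun g σ => ⟨conjSub (g : E) '' σ.1, σ.2.conj g⟩
      one_smul := fun σ => by
        apply Subtype.ext
        change conjSub (1 : E) '' σ.1 = σ.1
        have : (conjSub (1 : E)) = id := funext conjSub_one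
        rw [this, Set.image_id]
      mul_smul := fun g h σ => by
        apply Subtype.ext
        change conjSub ((g : E) * h) '' σ.1 = conjSub (g : E) '' (conjSub (h : E) '' σ.1)
        rw [← Set.image_comp]
        congr 1
        exact funext fun P => conjSub_mul (g : E) h P }
  have hsm : ∀ (g : G) (σ : {σ : Set (Subgroup E) // IsRadChain p G σ}),
      (g • σ).1 = conjSub (g : E) '' σ.1 := fun _ _ => rfl
  have h := orbit_sum (G := G) (radSetoid p G) (by
    intro σ τ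
    change (∃ g ∈ G, τ.1 = conjSub g '' σ.1) ↔ _
    constructor
    · rintro ⟨g, hg, h⟩
      exact ⟨⟨g, hg⟩, Subtype.ext (by rw [hsm, h])⟩
    · rintro ⟨g, hg⟩
      exact ⟨g, g.2, by rw [← hg, hsm]⟩)
    (fun σ => (-1) ^ σ.1.ncard * f (chainStabilizer σ.1)) (by
      rintro σ τ ⟨g, hg, h⟩
      rw [h, ncard_conj, chainStabilizer_conj, hf g hg])
  unfold radSum
  rw [h]
  refine Finset.sum_congr rfl fun σ _ => ?_
  have hst : Nat.card (MulAction.stabilizer G σ) =
      Nat.card (G ⊓ chainStabilizer σ.1 : Subgroup E) := by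
    have hiff : ∀ g : G, g ∈ MulAction.stabilizer G σ ↔ (g : E) ∈ chainStabilizer σ.1 := by
      intro g
      rw [MulAction.mem_stabilizer_iff, Subtype.ext_iff, hsm, mem_chainStabilizer]
      constructor
      · intro h3 P hP
        have hgP : conjSub (g : E) P ∈ σ.1 := by
          rw [← h3]
          exact ⟨P, hP, rfl⟩
        have hcard : Nat.card (conjSub (g : E) P) = Nat.card P :=
          Nat.card_congr (Subgroup.equivMapOfInjective _ _ (MulAut.conj (g : E)).injective).toEquiv.symm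
        rcases σ.2.chain.total hgP hP with h4 | h4
        · exact Subgroup.eq_of_le_of_card_ge h4 hcard.ge
        · exact (Subgroup.eq_of_le_of_card_ge h4 hcard.le).symm
      · intro h3
        ext P
        constructor
        · rintro ⟨Q, hQ, rfl⟩
          rw [h3 Q hQ]
          exact hQ
        · intro hP
          exact ⟨P, hP, h3 P hP⟩
    exact Nat.card_congr
      { toFun := fun g => ⟨g.1, g.1.2, (hiff g.1).mp g.2⟩
        invFun := fun x => ⟨⟨x.1, x.2.1⟩, (hiff _).mpr x.2.2⟩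
        left_inv := fun _ => rfl
        right_inv := fun _ => rfl }
  rw [hst]
  ring

/-- the sum over the radical chains normalised by `K` -/
theorem sum_rad [Fact p.Prime] [Finite E] (K : Set E) (hO : Op p G = ⊥)
    [Fintype {σ : Set (Subgroup E) // IsRadChain p G σ}] :
    ∑ σ : {σ : Set (Subgroup E) // IsRadChain p G σ},
      (-1 : ℤ) ^ σ.1.ncard * (if ∀ Q ∈ σ.1, ∀ x ∈ K, conjSub x Q = Q then 1 else 0) =
      alt (· ≤ ·) (SS p K G ⊥) := by
  have h1 := RR_eq (p := p) K (Nat.card G) G le_rfl (fun x _ => conj_normal x)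
  rw [hO] at h1
  rw [← h1]
  unfold RR
  rw [← Finset.sum_filter]
  have h2 : ∀ σ : {σ : Set (Subgroup E) // IsRadChain p G σ},
      (-1 : ℤ) ^ σ.1.ncard * (if ∀ Q ∈ σ.1, ∀ x ∈ K, conjSub x Q = Q then 1 else 0) =
      if ∀ Q ∈ σ.1, ∀ x ∈ K, conjSub x Q = Q then (-1 : ℤ) ^ σ.1.ncard else 0 := by
    intro σ
    split_ifs <;> simp
  simp only [h2]
  rw [← Finset.sum_filter]
  refine Finset.sum_bij (fun σ _ => fs σ.1) ?_ ?_ ?_ ?_
  · intro σ hσ
    rw [Finset.mem_filter] at hσ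
    rw [Finset.mem_filter, mem_Ch]
    refine ⟨⟨fun P _ => mem_fs.mpr trivial, ?_⟩, ?_, ?_⟩
    · intro P hP Q hQ hne
      exact σ.2.chain (mem_fs.mp hP) (mem_fs.mp hQ) hne
    · intro P hP
      have hP' : P ∈ σ.1 := mem_fs.mp hP
      refine ⟨σ.2.isPGroup P hP', σ.2.le P hP', ?_, ?_⟩
      · rw [hO]
        exact bot_lt_iff_ne_bot.mpr (σ.2.ne_bot P hP')
      · have h3 := isOp_iff.mp (σ.2.radical P hP')
        simp only [mem_fs]
        exact h3
    · intro Q hQ
      exact hσ.2 Q (mem_fs.mp hQ)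
  · intro σ _ τ _ h
    apply Subtype.ext
    ext P
    rw [← mem_fs (s := σ.1), h, mem_fs]
  · intro τ hτ
    rw [Finset.mem_filter, mem_Ch] at hτ
    refine ⟨⟨(τ : Set (Subgroup E)), ⟨hτ.1.2, fun P hP => (hτ.2.1 P hP).1,
      fun P hP => (hτ.2.1 P hP).2.1, fun P hP => ?_, fun P hP => ?_⟩⟩, ?_, ?_⟩
    · have := (hτ.2.1 P hP).2.2.1
      rw [hO] at this
      exact this.ne'
    · rw [isOp_iff]
      exact (hτ.2.1 P hP).2.2.2
    · rw [Finset.mem_filter]
      exact ⟨Finset.mem_univ _, fun Q hQ => hτ.2.2 Q hQ⟩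
    · ext P
      rw [mem_fs]
      exact Iff.rfl
  · intro σ _
    congr 1
    rw [Set.ncard_eq_toFinset_card _ (Set.toFinite _)]
    rfl

/-- a `p`-subgroup of `⟨K⟩` normalised by `K` -/
theorem alt_sub [Fact p.Prime] [Finite E] {K : Set E} {W : Subgroup E} (hW : IsPGroup p W)
    (hW1 : W ≠ ⊥) (hWG : W ≤ G) (hWK : W ≤ Subgroup.closure K) (hKW : ∀ x ∈ K, conjSub x W = W) :
    alt (· ≤ ·) (SS p K G ⊥) = 0 := by
  have hWS : W ∈ SS p K G ⊥ := mem_SS.mpr ⟨hW, bot_lt_iff_ne_bot.mpr hW1, hWG, hKW⟩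
  have h1 : alt (· ≤ ·) (SS p K G ⊥) =
      alt (· ≤ ·) ((SS p K G ⊥).filter (fun R => W ≤ R)) := by
    refine retract_up (Finset.filter_subset _ _) (fun R => R ⊔ W) ?_ ?_ ?_ ?_
    · intro R hR
      rw [Finset.mem_filter, mem_SS]
      rw [mem_SS] at hR
      refine ⟨⟨?_, hR.2.1.trans_le le_sup_left, sup_le hR.2.2.1 hWG, ?_⟩, le_sup_right⟩
      · refine (IsPGroup.to_sup_of_normal_right' hW hR.1 ?_).to_le (by rw [sup_comm])
        refine hWK.trans ?_
        rw [Subgroup.closure_le]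
        intro x hx
        exact conjSub_eq_iff.mp (hR.2.2.2 x hx)
      · intro x hx
        rw [conjSub_sup, hR.2.2.2 x hx, hKW x hx]
    · intro R _
      exact le_sup_left
    · intro R _ R' _ h
      exact sup_le_sup_right h _
    · intro R hR
      exact sup_eq_left.mpr (Finset.mem_filter.mp hR).2
  rw [h1]
  exact alt_cone (t := W) (Finset.mem_filter.mpr ⟨hWS, le_rfl⟩)
    fun R hR => Or.inr (Finset.mem_filter.mp hR).2

lemma aa_conj [Finite E] (e g : E) (hg : g ∈ G) (S : Subgroup E) :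
    aa G (conjSub g S) e = aa G S e := by
  have h1 := card_aa (G := G) (S := conjSub g S) e
  have h2 := card_aa (G := G) (S := S) e
  have h3 : Nat.card (G ⊓ conjSub g S : Subgroup E) = Nat.card (G ⊓ S : Subgroup E) := by
    have : G ⊓ conjSub g S = conjSub g (G ⊓ S) := by rw [conjSub_inf, conj_normal (G := G)]
    rw [this]
    exact Nat.card_congr (Subgroup.equivMapOfInjective _ _ (MulAut.conj g).injective).toEquiv.symm
  have hcoset : ∀ y : E, g⁻¹ * y * g * e⁻¹ ∈ G ↔ y * e⁻¹ ∈ G := by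
    intro y
    have e1 : g⁻¹ * y * g * e⁻¹ = g⁻¹ * (y * e⁻¹) * (e * g * e⁻¹) := by group
    rw [e1, G.mul_mem_cancel_right (hG.conj_mem g hg e), G.mul_mem_cancel_left (G.inv_mem hg)]
  have h4 : Nat.card {q : E × E // q.1 ∈ G ⊓ conjSub g S ∧
      (q.2 ∈ conjSub g S ∧ q.2 * e⁻¹ ∈ G) ∧ q.2 * q.1 = q.1 * q.2} =
      Nat.card {q : E × E // q.1 ∈ G ⊓ S ∧ (q.2 ∈ S ∧ q.2 * e⁻¹ ∈ G) ∧ q.2 * q.1 = q.1 * q.2} := by
    refine Nat.card_congr
      { toFun := fun q => ⟨(g⁻¹ * q.1.1 * g, g⁻¹ * q.1.2 * g), ⟨?_, ?_⟩, ⟨?_, ?_⟩, ?_⟩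
        invFun := fun q => ⟨(g * q.1.1 * g⁻¹, g * q.1.2 * g⁻¹), ⟨?_, ?_⟩, ⟨?_, ?_⟩, ?_⟩
        left_inv := fun q => Subtype.ext (Prod.ext
          (by change g * (g⁻¹ * q.1.1 * g) * g⁻¹ = q.1.1; group)
          (by change g * (g⁻¹ * q.1.2 * g) * g⁻¹ = q.1.2; group))
        right_inv := fun q => Subtype.ext (Prod.ext
          (by change g⁻¹ * (g * q.1.1 * g⁻¹) * g = q.1.1; group)
          (by change g⁻¹ * (g * q.1.2 * g⁻¹) * g = q.1.2; group)) }
    · have := hG.conj_mem _ q.2.1.1 g⁻¹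
      rwa [inv_inv] at this
    · exact mem_conjSub.mp q.2.1.2
    · exact mem_conjSub.mp q.2.2.1.1
    · exact (hcoset _).mpr q.2.2.1.2
    · change g⁻¹ * q.1.2 * g * (g⁻¹ * q.1.1 * g) = g⁻¹ * q.1.1 * g * (g⁻¹ * q.1.2 * g)
      have := q.2.2.2
      calc g⁻¹ * q.1.2 * g * (g⁻¹ * q.1.1 * g) = g⁻¹ * (q.1.2 * q.1.1) * g := by group
        _ = g⁻¹ * (q.1.1 * q.1.2) * g := by rw [this]
        _ = _ := by group
    · exact hG.conj_mem _ q.2.1.1 g
    · exact conj_mem_conjSub q.2.1.2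
    · exact conj_mem_conjSub q.2.2.1.1
    · change g * q.1.2 * g⁻¹ * e⁻¹ ∈ G
      rw [← hcoset]
      have e1 : g⁻¹ * (g * q.1.2 * g⁻¹) * g * e⁻¹ = q.1.2 * e⁻¹ := by group
      rw [e1]
      exact q.2.2.1.2
    · change g * q.1.2 * g⁻¹ * (g * q.1.1 * g⁻¹) = g * q.1.1 * g⁻¹ * (g * q.1.2 * g⁻¹)
      have := q.2.2.2
      calc g * q.1.2 * g⁻¹ * (g * q.1.1 * g⁻¹) = g * (q.1.2 * q.1.1) * g⁻¹ := by group
        _ = g * (q.1.1 * q.1.2) * g⁻¹ := by rw [this]
        _ = _ := by group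
  rw [h4, ← h2, h3] at h1
  exact Nat.eq_of_mul_eq_mul_left Nat.card_pos h1

/-- **The alternating sum of the numbers of invariant characters in terms of commuting pairs.** -/
theorem radSum_aa [Fact p.Prime] [Finite E] [Fintype E] (hO : Op p G = ⊥) (e : E) :
    (Nat.card G : ℤ) * radSum p G (fun S => (aa G S e : ℤ)) =
      ∑ q ∈ Finset.univ.filter (fun q : E × E => q.1 ∈ G ∧ q.2 * e⁻¹ ∈ G ∧ q.2 * q.1 = q.1 * q.2),
        alt (· ≤ ·) (SS p {q.1, q.2} G ⊥) := by
  have : Fintype {σ : Set (Subgroup E) // IsRadChain p G σ} := Fintype.ofFinite _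
  rw [card_mul_radSum _ (fun g hg S => by rw [aa_conj e g hg S])]
  have h1 : ∀ σ : {σ : Set (Subgroup E) // IsRadChain p G σ},
      (-1 : ℤ) ^ σ.1.ncard * ((Nat.card (G ⊓ chainStabilizer σ.1 : Subgroup E) : ℤ) *
          (aa G (chainStabilizer σ.1) e : ℤ)) =
      ∑ q ∈ Finset.univ.filter (fun q : E × E => q.1 ∈ G ∧ q.2 * e⁻¹ ∈ G ∧ q.2 * q.1 = q.1 * q.2),
        (-1 : ℤ) ^ σ.1.ncard *
          (if ∀ Q ∈ σ.1, ∀ x ∈ ({q.1, q.2} : Set E), conjSub x Q = Q then 1 else 0) := by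
    intro σ
    rw [← Nat.cast_mul, card_aa, ← Finset.mul_sum]
    congr 1
    rw [Nat.card_eq_fintype_card, Fintype.card_subtype, Finset.card_eq_sum_ones, Nat.cast_sum,
      ← Finset.sum_filter, Finset.filter_filter]
    refine Finset.sum_congr ?_ fun _ _ => by simp
    ext q
    rw [Finset.mem_filter, Finset.mem_filter]
    refine and_congr_right fun _ => ?_
    rw [Subgroup.mem_inf, mem_chainStabilizer, mem_chainStabilizer]
    constructor
    · rintro ⟨⟨a1, a2⟩, ⟨a3, a4⟩, a5⟩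
      refine ⟨⟨a1, a4, a5⟩, fun Q hQ x hx => ?_⟩
      rcases hx with rfl | hx
      · exact a2 Q hQ
      · have hx' : x = q.2 := hx
        rw [hx']; exact a3 Q hQ
    · rintro ⟨⟨a1, a4, a5⟩, h⟩
      exact ⟨⟨a1, fun Q hQ => h Q hQ _ (by simp)⟩, ⟨fun Q hQ => h Q hQ _ (by simp), a4⟩, a5⟩
  rw [Finset.sum_congr rfl fun σ _ => h1 σ, Finset.sum_comm]
  refine Finset.sum_congr rfl fun q _ => ?_
  convert sum_rad (p := p) {q.1, q.2} hO

/-- the subgroup `U` of `E / G` does not split at `p` -/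
def NonSplit (p : ℕ) (G : Subgroup E) [G.Normal] (U : Subgroup (E ⧸ G)) : Prop :=
  ∀ u : E, (u : E ⧸ G) ∈ U → orderOf (u : E ⧸ G) = p ^ (Nat.card U).factorization p →
    orderOf u ≠ orderOf (u : E ⧸ G)

/-- **Vanishing.** -/
theorem alt_pair [hp : Fact p.Prime] [Finite E] {U : Subgroup (E ⧸ G)} (hU : NonSplit p G U) {x y : E}
    (hyU : U ≤ Subgroup.zpowers (y : E ⧸ G)) (hxy : y * x = x * y) :
    alt (· ≤ ·) (SS p ({x, y} : Set E) G ⊥) = 0 := by
  -- a generator of the Sylow subgroup of `U`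
  have hcyc : IsCyclic U := by
    have h1 : IsCyclic (Subgroup.zpowers (y : E ⧸ G)) := inferInstance
    exact isCyclic_of_injective (Subgroup.inclusion hyU) (Subgroup.inclusion_injective hyU)
  obtain ⟨v, hv⟩ := IsCyclic.exists_generator (α := U)
  set n := Nat.card U with hn
  have hn0 : n ≠ 0 := Nat.card_pos.ne'
  have hov : orderOf v = n := orderOf_eq_card_of_forall_mem_zpowers hv
  set b := n.factorization p with hb
  set c := n / p ^ b with hc
  have hbc : p ^ b * c = n := Nat.ordProj_mul_ordCompl_eq_self _ _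
  have hc0 : c ≠ 0 := by
    intro h
    rw [h, mul_zero] at hbc
    exact hn0 hbc.symm
  have hw : orderOf (v ^ c) = p ^ b := by
    rw [orderOf_pow_of_dvd hc0 (by rw [hov]; exact ⟨_, by rw [mul_comm]; exact hbc.symm⟩), hov]
    exact Nat.div_eq_of_eq_mul_left (Nat.pos_of_ne_zero hc0) hbc.symm
  obtain ⟨j, hj⟩ := Subgroup.mem_zpowers_iff.mp (hyU (v ^ c).2)
  -- the `p`-part of `y`
  have hy0 : orderOf y ≠ 0 := (orderOf_pos y).ne'
  set a := (orderOf y).factorization p with ha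
  set m := orderOf y / p ^ a with hm
  have hmm : p ^ a * m = orderOf y := Nat.ordProj_mul_ordCompl_eq_self _ _
  have hpm : ¬ p ∣ m := Nat.not_dvd_ordCompl hp.out hy0
  set u : E := (y ^ j) ^ m with hu
  have hupow : u ^ p ^ a = 1 := by
    rw [hu, ← pow_mul, mul_comm m, hmm, ← zpow_natCast, ← zpow_mul, mul_comm, zpow_mul,
      zpow_natCast, pow_orderOf_eq_one, one_zpow]
  have hubar : ((u : E) : E ⧸ G) = ((v ^ c : U) : E ⧸ G) ^ m := by
    rw [hu, ← hj]
    rfl
  have hou : orderOf ((u : E) : E ⧸ G) = p ^ b := by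
    rw [hubar]
    have h1 : orderOf ((v ^ c : U) : E ⧸ G) = p ^ b := by rw [Subgroup.orderOf_coe, hw]
    have h2 : Nat.Coprime (orderOf ((v ^ c : U) : E ⧸ G)) m := by
      rw [h1]
      exact ((Nat.Prime.coprime_iff_not_dvd hp.out).mpr hpm).pow_left b
    rw [h2.orderOf_pow, h1]
  have huU : ((u : E) : E ⧸ G) ∈ U := by
    rw [hubar]
    exact U.pow_mem (v ^ c).2 m
  have hne := hU u huU hou
  set w : E := u ^ p ^ b with hwdef
  have hw1 : w ≠ 1 := by
    intro h
    apply hne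
    rw [hou]
    apply Nat.dvd_antisymm (orderOf_dvd_of_pow_eq_one h)
    rw [← hou]
    exact orderOf_map_dvd (QuotientGroup.mk' G) u
  have hwG : w ∈ G := by
    rw [← QuotientGroup.eq_one_iff, hwdef, QuotientGroup.mk_pow, ← hou, pow_orderOf_eq_one]
  have hwp : w ^ p ^ a = 1 := by
    rw [hwdef, ← pow_mul, mul_comm, pow_mul, hupow, one_pow]
  have hwy : w ∈ Subgroup.zpowers y := by
    rw [hwdef, hu]
    exact Subgroup.pow_mem _ (Subgroup.pow_mem _ (Subgroup.zpow_mem _ (Subgroup.mem_zpowers y) _) _) _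
  have hcy : y * w = w * y := by
    obtain ⟨k, hk⟩ := Subgroup.mem_zpowers_iff.mp hwy
    rw [← hk]
    exact ((Commute.refl y).zpow_right k).eq
  have hcx : x * w = w * x := by
    obtain ⟨k, hk⟩ := Subgroup.mem_zpowers_iff.mp hwy
    rw [← hk]
    have : Commute x y := hxy.symm
    exact (this.zpow_right k).eq
  have hconj : ∀ g : E, g * w = w * g → conjSub g (Subgroup.zpowers w) = Subgroup.zpowers w := by
    intro g hg
    unfold conjSub
    rw [MonoidHom.map_zpowers]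
    congr 1
    change g * w * g⁻¹ = w
    rw [hg]; group
  refine alt_sub (W := Subgroup.zpowers w) ?_ ?_ ?_ ?_ ?_
  · intro z
    obtain ⟨k, hk⟩ := Subgroup.mem_zpowers_iff.mp z.2
    refine ⟨a, Subtype.ext ?_⟩
    change (z : E) ^ p ^ a = 1
    rw [← hk, ← zpow_natCast, ← zpow_mul, mul_comm, zpow_mul, zpow_natCast, hwp, one_zpow]
  · rw [Ne, Subgroup.zpowers_eq_bot]
    exact hw1
  · rw [Subgroup.zpowers_le]
    exact hwG
  · rw [Subgroup.zpowers_le]
    have h1 : Subgroup.zpowers y ≤ Subgroup.closure ({x, y} : Set E) := by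
      rw [Subgroup.zpowers_le]
      exact Subgroup.subset_closure (by simp)
    exact h1 hwy
  · rintro g (rfl | hg)
    · exact hconj _ hcx
    · have hg' : g = y := hg
      rw [hg']
      exact hconj _ hcy

/-- **Main theorem, one coset.** -/
theorem radSum_aa_zero [Fact p.Prime] [Finite E] (hO : Op p G = ⊥) {U : Subgroup (E ⧸ G)}
    (hU : NonSplit p G U) (e : E) (he : U ≤ Subgroup.zpowers (e : E ⧸ G)) :
    radSum p G (fun S => (aa G S e : ℤ)) = 0 := by
  have : Fintype E := Fintype.ofFinite E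
  have h1 := radSum_aa (p := p) hO e
  rw [Finset.sum_eq_zero] at h1
  · rcases mul_eq_zero.mp h1 with h2 | h2
    · exact absurd h2 (by exact_mod_cast Nat.card_pos.ne')
    · exact h2
  · intro q hq
    rw [Finset.mem_filter] at hq
    have h2 : (q.2 : E ⧸ G) = (e : E ⧸ G) := by
      rw [QuotientGroup.eq]
      have h3 := hG.conj_mem _ (G.inv_mem hq.2.2.1) q.2⁻¹
      have e2 : q.2⁻¹ * (q.2 * e⁻¹)⁻¹ * q.2⁻¹⁻¹ = q.2⁻¹ * e := by group
      rwa [e2] at h3
    exact alt_pair hU (by rw [h2]; exact he) hq.2.2.2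

lemma radSum_sum [Finite E] {ι : Type} (T : Finset ι) (f : ι → Subgroup E → ℤ) :
    radSum p G (fun S => ∑ i ∈ T, f i S) = ∑ i ∈ T, radSum p G (f i) := by
  have : Fintype (Quotient (radSetoid p G)) := Fintype.ofFinite _
  unfold radSum
  simp only [finsum_eq_sum_of_fintype, Finset.mul_sum]
  rw [Finset.sum_comm]

/-- **Main theorem, cyclic quotient.** -/
theorem radSum_kU_zero [Fact p.Prime] [Finite E] (hO : Op p G = ⊥) (hcyc : IsCyclic (E ⧸ G))
    {U : Subgroup (E ⧸ G)} (hU : NonSplit p G U) :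
    radSum p G (fun S => (kU G S U : ℤ)) = 0 := by
  have : Fintype (Subgroup (E ⧸ G)) := Fintype.ofFinite _
  suffices h : ∀ (n : ℕ) (V : Subgroup (E ⧸ G)), V.index ≤ n → U ≤ V →
      radSum p G (fun S => (kU G S V : ℤ)) = 0 from h U.index U le_rfl le_rfl
  intro n
  induction n with
  | zero =>
    intro V hV _
    have : V.index ≠ 0 := V.index_ne_zero_of_finite
    omega
  | succ n ih =>
    intro V hV hUV
    obtain ⟨v, hv⟩ := IsCyclic.exists_generator (α := V)
    obtain ⟨e, he⟩ := QuotientGroup.mk_surjective (v : E ⧸ G)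
    have hVe : V = Subgroup.zpowers (e : E ⧸ G) := by
      apply le_antisymm
      · intro x hx
        obtain ⟨k, hk⟩ := Subgroup.mem_zpowers_iff.mp (hv ⟨x, hx⟩)
        rw [Subgroup.mem_zpowers_iff]
        refine ⟨k, ?_⟩
        rw [he]
        exact congrArg Subtype.val hk
      · rw [Subgroup.zpowers_le, he]
        exact v.2
    have h1 := radSum_aa_zero (p := p) hO hU e (hUV.trans hVe.le)
    have h2 : (fun S => (aa G S e : ℤ)) = fun S => ∑ W ∈ Finset.univ.filter
        (fun W : Subgroup (E ⧸ G) => (e : E ⧸ G) ∈ W), (kU G S W : ℤ) := by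
      funext S
      rw [aa_eq_sum]
      push_cast
      rfl
    rw [h2, radSum_sum, Finset.sum_eq_single V] at h1
    · exact h1
    · intro W hW hWV
      have h3 : V ≤ W := by
        rw [hVe, Subgroup.zpowers_le]
        exact (Finset.mem_filter.mp hW).2
      have h4 : V < W := lt_of_le_of_ne h3 (Ne.symm hWV)
      refine ih W ?_ (hUV.trans h3)
      have h5 : W.index < V.index := Subgroup.index_strictAnti h4
      omega
    · intro h
      exfalso
      apply h
      rw [Finset.mem_filter, hVe]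
      exact ⟨Finset.mem_univ _, Subgroup.mem_zpowers _⟩

end Pool.Agent.Q100.IV
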