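import Mathlib

set_option autoImplicit false

/-!
# Alternating sums over the chains of a finite poset
-/

open scoped Classical
open Finset

noncomputable section

namespace Pool.Agent.Q100.IV

variable {α : Type}

/-- the chains in `S` -/
def Ch (r : α → α → Prop) (S : Finset α) : Finset (Finset α) :=
  S.powerset.filter (fun σ : Finset α => IsChain r (σ : Set α))

/-- the alternating sum over the chains in `S`, the empty chain included -/
def alt (r : α → α → Prop) (S : Finset α) : ℤ := ∑ σ ∈ Ch r S, (-1 : ℤ) ^ σ.card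

lemma mem_Ch {r : α → α → Prop} {S σ : Finset α} :
    σ ∈ Ch r S ↔ σ ⊆ S ∧ IsChain r (σ : Set α) := by
  unfold Ch
  rw [mem_filter, mem_powerset]

lemma alt_swap (r : α → α → Prop) (S : Finset α) : alt (Function.swap r) S = alt r S := by
  unfold alt
  congr 1
  ext σ
  rw [mem_Ch, mem_Ch]
  refine and_congr Iff.rfl ⟨fun h => ?_, fun h => ?_⟩
  · intro x hx y hy hxy
    exact (h hy hx hxy.symm)
  · intro x hx y hy hxy
    exact (h hy hx hxy.symm)

/-- the structure of a partial order on `r` -/
structure PO (r : α → α → Prop) : Prop where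
  refl : ∀ x, r x x
  trans : ∀ x y z, r x y → r y z → r x z
  anti : ∀ x y, r x y → r y x → x = y

lemma PO.swap {r : α → α → Prop} (h : PO r) : PO (Function.swap r) where
  refl := h.refl
  trans x y z h1 h2 := h.trans z y x h2 h1
  anti x y h1 h2 := h.anti x y h2 h1

variable {r : α → α → Prop}

lemma least (hr : PO r) {σ : Finset α} (hσ : IsChain r (σ : Set α)) (hne : σ.Nonempty) :
    ∃ x ∈ σ, ∀ y ∈ σ, r x y := by
  induction σ using Finset.induction_on with
  | empty => exact absurd hne (by simp)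
  | insert a s ha ih =>
    by_cases hs : s.Nonempty
    · obtain ⟨x, hx, hmin⟩ := ih (hσ.mono (by simp)) hs
      by_cases hax : r x a
      · refine ⟨x, mem_insert_of_mem hx, fun y hy => ?_⟩
        rcases mem_insert.mp hy with rfl | hy
        · exact hax
        · exact hmin y hy
      · have hxa : x ≠ a := fun h => hax (h ▸ hr.refl x)
        have h1 : r a x := by
          rcases hσ (by simp [hx] : x ∈ ((insert a s : Finset α) : Set α))
            (by simp : a ∈ ((insert a s : Finset α) : Set α)) hxa with h | h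
          · exact absurd h hax
          · exact h
        refine ⟨a, mem_insert_self _ _, fun y hy => ?_⟩
        rcases mem_insert.mp hy with rfl | hy
        · exact hr.refl _
        · exact hr.trans _ _ _ h1 (hmin y hy)
    · rw [not_nonempty_iff_eq_empty] at hs
      subst hs
      refine ⟨a, by simp, fun y hy => ?_⟩
      have : y = a := by simpa using hy
      rw [this]
      exact hr.refl a

/-- an element comparable with all the others makes the sum vanish -/
lemma alt_cone {S : Finset α} {t : α} (ht : t ∈ S) (h : ∀ y ∈ S, r y t ∨ r t y) :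
    alt r S = 0 := by
  have hmem : ∀ σ ∈ Ch r S, (if t ∈ σ then σ.erase t else insert t σ) ∈ Ch r S := by
    intro σ hσ
    rw [mem_Ch] at hσ ⊢
    split_ifs with h1
    · exact ⟨(erase_subset _ _).trans hσ.1, hσ.2.mono (by
        intro x hx
        exact (mem_erase.mp (mem_coe.mp hx)).2)⟩
    · refine ⟨insert_subset ht hσ.1, ?_⟩
      rw [coe_insert]
      refine hσ.2.insert fun b hb _ => ?_
      exact (h b (hσ.1 hb)).symm
  unfold alt
  refine Finset.sum_involution (fun σ _ => if t ∈ σ then σ.erase t else insert t σ) ?_ ?_ ?_ ?_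
  · intro σ _
    split_ifs with h1
    · have h2 := card_erase_add_one h1
      have h3 : (-1 : ℤ) ^ σ.card = -(-1) ^ (σ.erase t).card := by
        rw [← h2, pow_succ]; ring
      rw [h3]; ring
    · rw [card_insert_of_notMem h1, pow_succ]; ring
  · intro σ _ _ h2
    split_ifs at h2 with h1
    · have := mem_erase.mp (h2.symm ▸ h1 : t ∈ σ.erase t)
      exact this.1 rfl
    · exact h1 (h2 ▸ mem_insert_self t σ)
  · intro σ hσ
    exact hmem σ hσ
  · intro σ _
    by_cases h1 : t ∈ σ
    · simp only [h1, if_true, mem_erase, ne_eq, not_true_eq_false, false_and, if_false]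
      exact insert_erase h1
    · simp only [h1, if_false, mem_insert_self, if_true]
      exact erase_insert h1

/-- the elements above `x` -/
def up (r : α → α → Prop) (S : Finset α) (x : α) : Finset α := S.filter (fun y => r x y ∧ y ≠ x)

lemma mem_up {S : Finset α} {x y : α} : y ∈ up r S x ↔ y ∈ S ∧ r x y ∧ y ≠ x := by
  unfold up
  rw [mem_filter]

/-- a bijection between the nonempty chains and the pairs (least element, rest) -/
lemma sum_nonempty (hr : PO r) (S : Finset α) (f : Finset α → ℤ) :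
    ∑ σ ∈ (Ch r S).filter (fun σ => σ.Nonempty), f σ =
      ∑ x ∈ S, ∑ τ ∈ Ch r (up r S x), f (insert x τ) := by
  rw [Finset.sum_sigma' S (fun x => Ch r (up r S x)) (fun x τ => f (insert x τ))]
  symm
  refine Finset.sum_bij (fun a _ => insert a.1 a.2) ?_ ?_ ?_ ?_
  · rintro ⟨x, τ⟩ ha
    rw [mem_sigma, mem_Ch] at ha
    dsimp only at ha ⊢
    rw [mem_filter, mem_Ch]
    refine ⟨⟨insert_subset ha.1 fun y hy => (mem_up.mp (ha.2.1 hy)).1, ?_⟩, insert_nonempty _ _⟩
    rw [coe_insert]
    exact ha.2.2.insert fun b hb _ => Or.inl (mem_up.mp (ha.2.1 hb)).2.1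
  · rintro ⟨x, τ⟩ ha ⟨x', τ'⟩ ha' h
    rw [mem_sigma, mem_Ch] at ha ha'
    dsimp only at ha ha' h
    have hx : x ∈ insert x' τ' := h ▸ mem_insert_self x τ
    have hx' : x' ∈ insert x τ := h.symm ▸ mem_insert_self x' τ'
    have e : x = x' := by
      rcases mem_insert.mp hx with h1 | h1
      · exact h1
      · rcases mem_insert.mp hx' with h2 | h2
        · exact h2.symm
        · exact hr.anti _ _ (mem_up.mp (ha.2.1 h2)).2.1 (mem_up.mp (ha'.2.1 h1)).2.1
    subst e
    have hn : x ∉ τ := fun h1 => (mem_up.mp (ha.2.1 h1)).2.2 rfl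
    have hn' : x ∉ τ' := fun h1 => (mem_up.mp (ha'.2.1 h1)).2.2 rfl
    have : τ = τ' := by
      rw [← erase_insert hn, h, erase_insert hn']
    rw [this]
  · intro σ hσ
    rw [mem_filter, mem_Ch] at hσ
    obtain ⟨x, hx, hmin⟩ := least hr hσ.1.2 hσ.2
    refine ⟨⟨x, σ.erase x⟩, ?_, insert_erase hx⟩
    rw [mem_sigma, mem_Ch]
    refine ⟨hσ.1.1 hx, fun y hy => ?_, hσ.1.2.mono ?_⟩
    · rw [mem_up]
      have h1 := mem_erase.mp hy
      exact ⟨hσ.1.1 h1.2, hmin y h1.2, h1.1⟩
    · intro y hy
      exact (mem_erase.mp (mem_coe.mp hy)).2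
  · intro a _
    rfl

lemma empty_mem (S : Finset α) : (∅ : Finset α) ∈ Ch r S := by
  rw [mem_Ch]
  exact ⟨empty_subset _, by simp⟩

lemma notMem_up {S : Finset α} {x : α} {τ : Finset α} (h : τ ∈ Ch r (up r S x)) : x ∉ τ :=
  fun h1 => (mem_up.mp ((mem_Ch.mp h).1 h1)).2.2 rfl

lemma sum_Ch (hr : PO r) (S : Finset α) (f : Finset α → ℤ) :
    ∑ σ ∈ Ch r S, f σ = f ∅ + ∑ x ∈ S, ∑ τ ∈ Ch r (up r S x), f (insert x τ) := by
  rw [← sum_nonempty hr, ← Finset.sum_filter_add_sum_filter_not (Ch r S) (fun σ => σ.Nonempty) f,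
    add_comm]
  congr 1
  rw [Finset.sum_eq_single ∅]
  · intro σ hσ h
    rw [mem_filter, not_nonempty_iff_eq_empty] at hσ
    exact absurd hσ.2 h
  · intro h
    exact absurd (mem_filter.mpr ⟨empty_mem S, by simp⟩) h

/-- **Decomposition by the least element.** -/
lemma alt_least (hr : PO r) (S : Finset α) : alt r S = 1 - ∑ x ∈ S, alt r (up r S x) := by
  unfold alt
  rw [sum_Ch hr S (fun σ => (-1 : ℤ) ^ σ.card), card_empty, pow_zero, sub_eq_add_neg, ← sum_neg_distrib]
  congr 1
  refine Finset.sum_congr rfl fun x _ => ?_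
  rw [← sum_neg_distrib]
  refine Finset.sum_congr rfl fun τ hτ => ?_
  rw [card_insert_of_notMem (notMem_up hτ), pow_succ]
  ring

/-- **Retraction** with `f x` above `x` (for the relation `r`). -/
theorem alt_retract (hr : PO r) : ∀ (n : ℕ) (S T : Finset α), S.card ≤ n → T ⊆ S →
    ∀ f : α → α, (∀ x ∈ S, f x ∈ T) → (∀ x ∈ S, r x (f x)) →
    (∀ x ∈ S, ∀ y ∈ S, r x y → r (f x) (f y)) → (∀ x ∈ T, f x = x) → alt r S = alt r T := by
  intro n
  induction n with
  | zero =>
    intro S T hS hT f _ _ _ _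
    have h1 : S = ∅ := card_eq_zero.mp (Nat.le_zero.mp hS)
    subst h1
    rw [subset_empty.mp hT]
  | succ n ih =>
    intro S T hS hT f hfT hle hmono hid
    rw [alt_least hr S, alt_least hr T]
    congr 1
    have hcard : ∀ x ∈ S, (up r S x).card ≤ n := by
      intro x hx
      have h1 : up r S x ⊆ S.erase x := by
        intro y hy
        rw [mem_up] at hy
        exact mem_erase.mpr ⟨hy.2.2, hy.1⟩
      have h2 := card_le_card h1
      rw [card_erase_of_mem hx] at h2
      omega
    have hstep : ∀ x ∈ S, alt r (up r S x) = alt r (up r T x) := by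
      intro x hx
      refine ih _ _ (hcard x hx) ?_ f ?_ ?_ ?_ ?_
      · intro y hy
        rw [mem_up] at hy ⊢
        exact ⟨hT hy.1, hy.2⟩
      · intro y hy
        rw [mem_up] at hy ⊢
        refine ⟨hfT y hy.1, hr.trans _ _ _ hy.2.1 (hle y hy.1), ?_⟩
        intro h
        have h3 := hle y hy.1
        rw [h] at h3
        exact hy.2.2 (hr.anti _ _ h3 hy.2.1)
      · intro y hy
        exact hle y (mem_up.mp hy).1
      · intro y hy z hz
        exact hmono y (mem_up.mp hy).1 z (mem_up.mp hz).1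
      · intro y hy
        exact hid y (mem_up.mp hy).1
    rw [Finset.sum_congr rfl hstep]
    symm
    refine Finset.sum_subset hT fun x hx hxT => ?_
    -- `f x` is the least element of `up T x`
    have hne : f x ≠ x := fun h => hxT (h ▸ hfT x hx)
    refine alt_cone (t := f x) ?_ ?_
    · rw [mem_up]
      exact ⟨hfT x hx, hle x hx, hne⟩
    · intro y hy
      rw [mem_up] at hy
      right
      have h1 := hmono x hx y (hT hy.1) hy.2.1
      rwa [hid y hy.1] at h1

lemma po_le {β : Type} [PartialOrder β] : PO (fun a b : β => a ≤ b) where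
  refl := le_refl
  trans _ _ _ := le_trans
  anti _ _ := le_antisymm

/-- retraction upwards -/
theorem retract_up {β : Type} [PartialOrder β] {S T : Finset β} (hT : T ⊆ S) (f : β → β)
    (hf : ∀ x ∈ S, f x ∈ T) (hle : ∀ x ∈ S, x ≤ f x) (hmono : ∀ x ∈ S, ∀ y ∈ S, x ≤ y → f x ≤ f y)
    (hid : ∀ x ∈ T, f x = x) : alt (· ≤ ·) S = alt (· ≤ ·) T :=
  alt_retract po_le S.card S T le_rfl hT f hf hle hmono hid

/-- retraction downwards -/
theorem retract_down {β : Type} [PartialOrder β] {S T : Finset β} (hT : T ⊆ S) (f : β → β)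
    (hf : ∀ x ∈ S, f x ∈ T) (hle : ∀ x ∈ S, f x ≤ x) (hmono : ∀ x ∈ S, ∀ y ∈ S, x ≤ y → f x ≤ f y)
    (hid : ∀ x ∈ T, f x = x) : alt (· ≤ ·) S = alt (· ≤ ·) T := by
  have h := alt_retract (r := Function.swap (fun a b : β => a ≤ b)) po_le.swap S.card S T le_rfl hT f
    hf hle (fun x hx y hy hxy => hmono y hy x hx hxy) hid
  exact ((alt_swap (fun a b : β => a ≤ b) S).symm.trans h).trans (alt_swap (fun a b : β => a ≤ b) T)

end Pool.Agent.Q100.IV
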