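import Pool.Agent.Q100.IV.Poset
import Pool.Agent.Y63.KR.Basic

set_option autoImplicit false

/-!
# Radical chains and all chains of `p`-subgroups have the same alternating sums
-/

open scoped Classical
open Finset Pool.Agent.Y63.KR

noncomputable section

namespace Pool.Agent.Q100.IV

variable {E : Type} [Group E] {p : ℕ}

/-- `Q` is a normal `p`-subgroup of `H` -/
structure NP (p : ℕ) (H Q : Subgroup E) : Prop where
  le : Q ≤ H
  pg : IsPGroup p Q
  nrm : ∀ h ∈ H, conjSub h Q = Q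

/-- `O_p(H)` -/
def Op (p : ℕ) (H : Subgroup E) : Subgroup E := sSup {Q | NP p H Q}

lemma conjSub_bot (g : E) : conjSub g (⊥ : Subgroup E) = ⊥ := Subgroup.map_bot _

lemma conjSub_sup (g : E) (P Q : Subgroup E) : conjSub g (P ⊔ Q) = conjSub g P ⊔ conjSub g Q :=
  Subgroup.map_sup _ _ _

lemma conjSub_inf (g : E) (P Q : Subgroup E) : conjSub g (P ⊓ Q) = conjSub g P ⊓ conjSub g Q := by
  ext x
  rw [mem_conjSub, Subgroup.mem_inf, Subgroup.mem_inf, mem_conjSub, mem_conjSub]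

lemma np_sup [Fact p.Prime] {H Q R : Subgroup E} (hQ : NP p H Q) (hR : NP p H R) :
    NP p H (Q ⊔ R) := by
  refine ⟨sup_le hQ.le hR.le, ?_, ?_⟩
  · refine IsPGroup.to_sup_of_normal_right' hQ.pg hR.pg ?_
    intro x hx
    exact conjSub_eq_iff.mp (hR.nrm x (hQ.le hx))
  · intro h hh
    rw [conjSub_sup, hQ.nrm h hh, hR.nrm h hh]

lemma np_bot (H : Subgroup E) : NP p H ⊥ := ⟨bot_le, IsPGroup.of_bot, fun h _ => conjSub_bot h⟩

/-- a set of subgroups as a finite set -/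
def fs [Finite E] (s : Set (Subgroup E)) : Finset (Subgroup E) := (Set.toFinite s).toFinset

lemma mem_fs [Finite E] {s : Set (Subgroup E)} {Q : Subgroup E} : Q ∈ fs s ↔ Q ∈ s :=
  Set.Finite.mem_toFinset _

theorem op_np [Fact p.Prime] [Finite E] (H : Subgroup E) : NP p H (Op p H) := by
  have hfin : (fs {Q : Subgroup E | NP p H Q}).Nonempty := ⟨⊥, mem_fs.mpr (np_bot H)⟩
  obtain ⟨Q, hQ, hmax⟩ := Finset.exists_max_image _ (fun Q : Subgroup E => Nat.card Q) hfin
  rw [mem_fs] at hQ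
  have hQ' : NP p H Q := hQ
  have h1 : Op p H = Q := by
    apply le_antisymm
    · refine sSup_le fun R hR => ?_
      have hR' : NP p H R := hR
      have h2 := hmax (Q ⊔ R) (mem_fs.mpr (np_sup hQ' hR'))
      have h3 : Q = Q ⊔ R := Subgroup.eq_of_le_of_card_ge le_sup_left h2
      rw [h3]
      exact le_sup_right
    · exact le_sSup hQ'
  rw [h1]
  exact hQ'

lemma le_op {H Q : Subgroup E} (h : NP p H Q) : Q ≤ Op p H := le_sSup h

lemma conj_op (g : E) (H : Subgroup E) (hg : conjSub g H = H) : conjSub g (Op p H) = Op p H := by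
  have key : ∀ g : E, conjSub g H = H → ∀ Q, NP p H Q → NP p H (conjSub g Q) := by
    intro g hg Q hQ
    refine ⟨?_, hQ.pg.map _, ?_⟩
    · calc conjSub g Q ≤ conjSub g H := conjSub_le hQ.le
        _ = H := hg
    · intro h hh
      have h1 : g⁻¹ * h * g ∈ H := by
        rw [← mem_conjSub, hg]; exact hh
      have h2 := hQ.nrm _ h1
      calc conjSub h (conjSub g Q) = conjSub g (conjSub (g⁻¹ * h * g) Q) := by
            rw [← conjSub_mul, ← conjSub_mul]; congr 1; group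
        _ = conjSub g Q := by rw [h2]
  have hle : ∀ g : E, conjSub g H = H → conjSub g (Op p H) ≤ Op p H := by
    intro g hg
    have h1 : conjSub g (Op p H) = ⨆ Q ∈ {Q : Subgroup E | NP p H Q}, conjSub g Q := by
      unfold Op conjSub
      rw [sSup_eq_iSup]
      simp only [Subgroup.map_iSup]
    rw [h1]
    exact iSup₂_le fun Q hQ => le_op (key g hg Q hQ)
  apply le_antisymm (hle g hg)
  have h2 : conjSub g⁻¹ H = H := by
    conv_lhs => rw [← hg]
    rw [conjSub_inv_conjSub]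
  have h3 := conjSub_le (g := g) (hle g⁻¹ h2)
  rwa [conjSub_conjSub_inv] at h3

/-- `N_H(Q)` -/
def Nm (H Q : Subgroup E) : Subgroup E := H ⊓ Subgroup.normalizer (Q : Set E)

lemma mem_Nm {H Q : Subgroup E} {x : E} : x ∈ Nm H Q ↔ x ∈ H ∧ conjSub x Q = Q := by
  unfold Nm
  rw [Subgroup.mem_inf, conjSub_eq_iff]

lemma np_Nm {H Q : Subgroup E} (hQ : IsPGroup p Q) (hle : Q ≤ H) : NP p (Nm H Q) Q := by
  refine ⟨?_, hQ, fun h hh => (mem_Nm.mp hh).2⟩
  intro x hx
  rw [mem_Nm]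
  exact ⟨hle hx, conjSub_eq_iff.mpr (Subgroup.le_normalizer hx)⟩

lemma conj_Nm {g : E} {H Q : Subgroup E} (hH : conjSub g H = H) (hQ : conjSub g Q = Q) :
    conjSub g (Nm H Q) = Nm H Q := by
  ext x
  rw [mem_conjSub, mem_Nm, mem_Nm]
  have h1 : g⁻¹ * x * g ∈ H ↔ x ∈ H := by
    rw [← mem_conjSub, hH]
  rw [h1]
  refine and_congr Iff.rfl ?_
  have hg' : conjSub g⁻¹ Q = Q := by
    conv_lhs => rw [← hQ]
    rw [conjSub_inv_conjSub]
  constructor
  · intro h
    rw [conjSub_mul, conjSub_mul, hQ] at h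
    have h2 := congrArg (conjSub g) h
    rwa [conjSub_conjSub_inv, hQ] at h2
  · intro h
    rw [conjSub_mul, conjSub_mul, hQ, h, hg']

/-- growth of normalisers in `p`-groups -/
lemma lt_Nm [Fact p.Prime] [Finite E] {Q R : Subgroup E} (hR : IsPGroup p R) (hQR : Q < R) :
    Q < R ⊓ Subgroup.normalizer (Q : Set E) := by
  have hfin : Finite R := inferInstance
  have h1 : Group.IsNilpotent R := hR.isNilpotent
  have h2 : NormalizerCondition R := Group.normalizerCondition_of_isNilpotent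
  have h3 : Q.subgroupOf R < ⊤ := by
    rw [lt_top_iff_ne_top]
    intro h
    rw [Subgroup.subgroupOf_eq_top] at h
    exact absurd hQR (not_lt_of_ge h)
  have h4 := h2 _ h3
  obtain ⟨r, hr1, hr2⟩ := SetLike.exists_of_lt h4
  refine lt_of_le_of_ne (le_inf hQR.le Subgroup.le_normalizer) fun h => ?_
  apply hr2
  rw [Subgroup.mem_subgroupOf, h]
  refine ⟨r.2, ?_⟩
  change (r : E) ∈ Subgroup.normalizer (Q : Set E)
  rw [Subgroup.mem_normalizer_iff] at hr1 ⊢
  intro x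
  constructor
  · intro hx
    have h5 := (hr1 ⟨x, hQR.le hx⟩).mp hx
    exact h5
  · intro hx
    have hx' : (r : E) * x * (r : E)⁻¹ ∈ Q := hx
    have hxR : x ∈ R := by
      have h6 := R.mul_mem (R.mul_mem (R.inv_mem r.2) (hQR.le hx')) r.2
      have e : (r : E)⁻¹ * ((r : E) * x * (r : E)⁻¹) * r = x := by group
      rwa [e] at h6
    exact (hr1 ⟨x, hxR⟩).mpr hx

variable [Finite E]

/-- the `p`-subgroups of `H` above `P` normalised by `K` -/
def SS (p : ℕ) (K : Set E) (H P : Subgroup E) : Finset (Subgroup E) :=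
  fs {Q : Subgroup E | IsPGroup p Q ∧ P < Q ∧ Q ≤ H ∧ ∀ x ∈ K, conjSub x Q = Q}

lemma mem_SS {K : Set E} {H P Q : Subgroup E} :
    Q ∈ SS p K H P ↔ IsPGroup p Q ∧ P < Q ∧ Q ≤ H ∧ ∀ x ∈ K, conjSub x Q = Q := by
  unfold SS
  rw [mem_fs]
  exact Iff.rfl

lemma up_SS {K : Set E} {H P Q : Subgroup E} (hQ : Q ∈ SS p K H P) :
    up (· ≤ ·) (SS p K H P) Q = SS p K H Q := by
  ext R
  rw [mem_up, mem_SS, mem_SS]
  rw [mem_SS] at hQ
  constructor
  · rintro ⟨⟨h1, h2, h3, h4⟩, h5, h6⟩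
    exact ⟨h1, lt_of_le_of_ne h5 (Ne.symm h6), h3, h4⟩
  · rintro ⟨h1, h2, h3, h4⟩
    exact ⟨⟨h1, hQ.2.1.trans h2, h3, h4⟩, h2.le, h2.ne'⟩

/-- restriction to the normaliser -/
theorem alt_Nm [Fact p.Prime] {K : Set E} {H Q : Subgroup E}
    (hQK : ∀ x ∈ K, conjSub x Q = Q) :
    alt (· ≤ ·) (SS p K H Q) = alt (· ≤ ·) (SS p K (Nm H Q) Q) := by
  refine retract_down ?_ (fun R => R ⊓ Subgroup.normalizer (Q : Set E)) ?_ ?_ ?_ ?_
  · intro R hR
    rw [mem_SS] at hR ⊢
    exact ⟨hR.1, hR.2.1, hR.2.2.1.trans inf_le_left, hR.2.2.2⟩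
  · intro R hR
    rw [mem_SS] at hR ⊢
    refine ⟨hR.1.to_le inf_le_left, lt_Nm hR.1 hR.2.1, inf_le_inf_right _ hR.2.2.1, ?_⟩
    intro x hx
    have h1 : R ⊓ Subgroup.normalizer (Q : Set E) = Nm R Q := rfl
    rw [h1]
    exact conj_Nm (hR.2.2.2 x hx) (hQK x hx)
  · intro R _
    exact inf_le_left
  · intro R _ R' _ h
    exact inf_le_inf_right _ h
  · intro R hR
    rw [mem_SS] at hR
    exact inf_eq_left.mpr (hR.2.2.1.trans inf_le_right)

/-- a normal `p`-subgroup -/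
theorem alt_normal [Fact p.Prime] {K : Set E} {H P U : Subgroup E} (hU : NP p H U) (hPU : P < U)
    (hUK : ∀ x ∈ K, conjSub x U = U) : alt (· ≤ ·) (SS p K H P) = 0 := by
  have hUS : U ∈ SS p K H P := mem_SS.mpr ⟨hU.pg, hPU, hU.le, hUK⟩
  have h1 : alt (· ≤ ·) (SS p K H P) = alt (· ≤ ·) ((SS p K H P).filter (fun R => U ≤ R)) := by
    refine retract_up (filter_subset _ _) (fun R => R ⊔ U) ?_ ?_ ?_ ?_
    · intro R hR
      rw [mem_filter, mem_SS]
      rw [mem_SS] at hR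
      refine ⟨⟨?_, hR.2.1.trans_le le_sup_left, sup_le hR.2.2.1 hU.le, ?_⟩, le_sup_right⟩
      · refine IsPGroup.to_sup_of_normal_right' hR.1 hU.pg ?_
        intro x hx
        exact conjSub_eq_iff.mp (hU.nrm x (hR.2.2.1 hx))
      · intro x hx
        rw [conjSub_sup, hR.2.2.2 x hx, hUK x hx]
    · intro R _
      exact le_sup_left
    · intro R _ R' _ h
      exact sup_le_sup_right h _
    · intro R hR
      exact sup_eq_left.mpr (mem_filter.mp hR).2
  rw [h1]
  exact alt_cone (t := U) (mem_filter.mpr ⟨hUS, le_rfl⟩) fun R hR => Or.inr (mem_filter.mp hR).2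

/-- `σ` is (the set of the nontrivial members of) a radical chain of `H` -/
def Rd (p : ℕ) (H : Subgroup E) (σ : Finset (Subgroup E)) : Prop :=
  ∀ P ∈ σ, IsPGroup p P ∧ P ≤ H ∧ Op p H < P ∧
    Op p (H ⊓ chainStabilizer {Q : Subgroup E | Q ∈ σ ∧ Q ≤ P}) = P

/-- the alternating sum over the radical chains normalised by `K` -/
def RR (p : ℕ) (K : Set E) (H : Subgroup E) : ℤ :=
  ∑ σ ∈ Ch (· ≤ ·) (fs (Set.univ : Set (Subgroup E))),
    if Rd p H σ ∧ ∀ Q ∈ σ, ∀ x ∈ K, conjSub x Q = Q then (-1) ^ σ.card else 0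

/-- a radical chain with the first member `x` -/
lemma Rd_insert [Fact p.Prime] {H x : Subgroup E} {τ : Finset (Subgroup E)}
    (hτ : ∀ P ∈ τ, x < P) :
    Rd p H (insert x τ) ↔ (IsPGroup p x ∧ x ≤ H ∧ Op p H < x ∧ Op p (Nm H x) = x) ∧
      Rd p (Nm H x) τ := by
  have e1 : {Q : Subgroup E | Q ∈ insert x τ ∧ Q ≤ x} = {x} := by
    ext Q
    rw [Set.mem_ofPred_eq, Set.mem_singleton_iff, Finset.mem_insert]
    constructor
    · rintro ⟨rfl | h, h1⟩
      · rfl
      · exact absurd (hτ Q h) (not_lt_of_ge h1)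
    · rintro rfl
      exact ⟨Or.inl rfl, le_rfl⟩
  have e2 : H ⊓ chainStabilizer ({x} : Set (Subgroup E)) = Nm H x := by
    ext y
    rw [Subgroup.mem_inf, mem_chainStabilizer, mem_Nm]
    refine and_congr Iff.rfl ⟨fun h => h x rfl, fun h Q hQ => ?_⟩
    rw [Set.mem_singleton_iff.mp hQ]
    exact h
  have e3 : ∀ P ∈ τ, H ⊓ chainStabilizer {Q : Subgroup E | Q ∈ insert x τ ∧ Q ≤ P} =
      Nm H x ⊓ chainStabilizer {Q : Subgroup E | Q ∈ τ ∧ Q ≤ P} := by
    intro P hP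
    ext y
    rw [Subgroup.mem_inf, Subgroup.mem_inf, mem_chainStabilizer, mem_chainStabilizer, mem_Nm]
    constructor
    · rintro ⟨h1, h2⟩
      exact ⟨⟨h1, h2 x ⟨Finset.mem_insert_self _ _, (hτ P hP).le⟩⟩,
        fun Q hQ => h2 Q ⟨Finset.mem_insert_of_mem hQ.1, hQ.2⟩⟩
    · rintro ⟨⟨h1, h2⟩, h3⟩
      refine ⟨h1, fun Q hQ => ?_⟩
      rcases Finset.mem_insert.mp hQ.1 with h4 | h4
      · rw [h4]; exact h2
      · exact h3 Q ⟨h4, hQ.2⟩
  constructor
  · intro h
    have hx := h x (Finset.mem_insert_self _ _)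
    rw [e1, e2] at hx
    refine ⟨hx, fun P hP => ?_⟩
    have h1 := h P (Finset.mem_insert_of_mem hP)
    rw [e3 P hP] at h1
    refine ⟨h1.1, ?_, ?_, h1.2.2.2⟩
    · have h2 := (op_np (p := p) (Nm H x ⊓ chainStabilizer {Q : Subgroup E | Q ∈ τ ∧ Q ≤ P})).le
      rw [h1.2.2.2] at h2
      exact h2.trans inf_le_left
    · rw [hx.2.2.2]
      exact hτ P hP
  · rintro ⟨hx, h⟩ P hP
    rcases Finset.mem_insert.mp hP with rfl | hP
    · rw [e1, e2]
      exact hx
    · rw [e3 P hP]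
      have h1 := h P hP
      exact ⟨h1.1, h1.2.1.trans inf_le_left, hx.2.2.1.trans (hτ P hP), h1.2.2.2⟩

theorem RR_rec [Fact p.Prime] (K : Set E) (H : Subgroup E) :
    RR p K H = 1 - ∑ x ∈ (SS p K H (Op p H)).filter (fun x => Op p (Nm H x) = x),
      RR p K (Nm H x) := by
  unfold RR
  rw [sum_Ch po_le]
  have h0 : Rd p H ∅ := fun P hP => absurd hP (Finset.notMem_empty P)
  have h1 : (if Rd p H ∅ ∧ ∀ Q ∈ (∅ : Finset (Subgroup E)), ∀ x ∈ K, conjSub x Q = Q then
      (-1 : ℤ) ^ (∅ : Finset (Subgroup E)).card else 0) = 1 := by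
    rw [if_pos ⟨h0, fun Q hQ => absurd hQ (Finset.notMem_empty Q)⟩, card_empty, pow_zero]
  rw [h1, sub_eq_add_neg, ← sum_neg_distrib]
  congr 1
  symm
  refine Finset.sum_subset_zero_on_sdiff (fun x _ => mem_fs.mpr trivial) ?_ ?_
  · intro x hx
    rw [mem_sdiff] at hx
    refine Finset.sum_eq_zero fun τ hτ => if_neg ?_
    rintro ⟨h2, h3⟩
    have hτ' : ∀ P ∈ τ, x < P := by
      intro P hP
      have h4 := mem_up.mp ((mem_Ch.mp hτ).1 hP)
      exact lt_of_le_of_ne h4.2.1 (Ne.symm h4.2.2)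
    rw [Rd_insert hτ'] at h2
    apply hx.2
    rw [mem_filter, mem_SS]
    exact ⟨⟨h2.1.1, h2.1.2.2.1, h2.1.2.1, h3 x (mem_insert_self _ _)⟩, h2.1.2.2.2⟩
  · intro x hx
    rw [mem_filter, mem_SS] at hx
    rw [← sum_neg_distrib]
    symm
    have hsub : Ch (fun a b : Subgroup E => a ≤ b)
        (up (fun a b : Subgroup E => a ≤ b) (fs (Set.univ : Set (Subgroup E))) x) ⊆
        Ch (fun a b : Subgroup E => a ≤ b) (fs (Set.univ : Set (Subgroup E))) := by
      intro τ hτ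
      rw [mem_Ch] at hτ ⊢
      exact ⟨fun P _ => mem_fs.mpr trivial, hτ.2⟩
    refine Finset.sum_subset_zero_on_sdiff hsub ?_ ?_
    · intro τ hτ
      rw [mem_sdiff] at hτ
      rw [neg_eq_zero]
      refine if_neg ?_
      rintro ⟨h2, h3⟩
      apply hτ.2
      rw [mem_Ch]
      refine ⟨fun P hP => ?_, (mem_Ch.mp hτ.1).2⟩
      have h4 := (h2 P hP).2.2.1
      rw [hx.2] at h4
      rw [mem_up]
      exact ⟨mem_fs.mpr trivial, h4.le, h4.ne'⟩
    · intro τ hτ
      have hτ' : ∀ P ∈ τ, x < P := by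
        intro P hP
        have h4 := mem_up.mp ((mem_Ch.mp hτ).1 hP)
        exact lt_of_le_of_ne h4.2.1 (Ne.symm h4.2.2)
      rw [card_insert_of_notMem (notMem_up hτ)]
      by_cases h5 : Rd p (Nm H x) τ ∧ ∀ Q ∈ τ, ∀ y ∈ K, conjSub y Q = Q
      · rw [if_pos h5, if_pos, pow_succ]
        · ring
        · rw [Rd_insert hτ']
          refine ⟨⟨⟨hx.1.1, hx.1.2.2.1, hx.1.2.1, hx.2⟩, h5.1⟩, fun Q hQ => ?_⟩
          rcases mem_insert.mp hQ with rfl | hQ
          · exact hx.1.2.2.2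
          · exact h5.2 Q hQ
      · rw [if_neg h5, if_neg, neg_zero]
        intro h6
        apply h5
        rw [Rd_insert hτ'] at h6
        exact ⟨h6.1.2, fun Q hQ => h6.2 Q (mem_insert_of_mem hQ)⟩

/-- **Radical chains and all chains.** -/
theorem RR_eq [Fact p.Prime] (K : Set E) : ∀ (n : ℕ) (H : Subgroup E), Nat.card H ≤ n →
    (∀ x ∈ K, conjSub x H = H) → RR p K H = alt (· ≤ ·) (SS p K H (Op p H)) := by
  intro n
  induction n with
  | zero =>
    intro H hH _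
    have : 0 < Nat.card H := Nat.card_pos
    omega
  | succ n ih =>
    intro H hH hK
    rw [RR_rec, alt_least po_le]
    congr 1
    rw [Finset.sum_filter]
    refine Finset.sum_congr rfl fun x hx => ?_
    rw [up_SS hx]
    rw [mem_SS] at hx
    rw [alt_Nm hx.2.2.2]
    have hN : ∀ y ∈ K, conjSub y (Nm H x) = Nm H x := fun y hy => conj_Nm (hK y hy) (hx.2.2.2 y hy)
    have hle : x ≤ Op p (Nm H x) := le_op (np_Nm hx.1 hx.2.2.1)
    by_cases h1 : Op p (Nm H x) = x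
    · rw [if_pos h1]
      have h2 : Nat.card (Nm H x) < Nat.card H := by
        have h3 : Nm H x ≤ H := inf_le_left
        rcases lt_or_ge (Nat.card (Nm H x)) (Nat.card H) with h4 | h4
        · exact h4
        · exfalso
          have h5 : Nm H x = H := Subgroup.eq_of_le_of_card_ge h3 h4
          rw [h5] at h1
          exact hx.2.1.ne h1
      have h6 := ih (Nm H x) (by omega) hN
      rw [h6, h1]
    · rw [if_neg h1]
      symm
      exact alt_normal (U := Op p (Nm H x)) (op_np _) (lt_of_le_of_ne hle (Ne.symm h1))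
        fun y hy => conj_op y _ (hN y hy)

end Pool.Agent.Q100.IV
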