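import Pool.Agent.Q100.IV.Main
import Pool.Agent.Y63.KR.Pairs

set_option autoImplicit false
set_option linter.unusedSectionVars false

/-!
# The split case: reduction to the centralisers of the complements
-/

open scoped Classical BigOperators
open Pool.Agent.Helper884.IC Pool.Agent.Y63.KR

noncomputable section

namespace Pool.Agent.Q100.IV

/-- transport along an order embedding -/
theorem alt_image {α β : Type} {r : α → α → Prop} {r' : β → β → Prop} (φ : α → β)
    (hφ : Function.Injective φ) (hr : ∀ a b, r a b ↔ r' (φ a) (φ b)) (S : Finset α) :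
    alt r' (S.image φ) = alt r S := by
  unfold alt
  symm
  refine Finset.sum_bij (fun σ _ => σ.image φ) ?_ ?_ ?_ ?_
  · intro σ hσ
    rw [mem_Ch] at hσ ⊢
    refine ⟨Finset.image_subset_image hσ.1, ?_⟩
    rw [Finset.coe_image]
    rintro _ ⟨a, ha, rfl⟩ _ ⟨b, hb, rfl⟩ hne
    have hab : a ≠ b := fun h => hne (by rw [h])
    rcases hσ.2 ha hb hab with h | h
    · exact Or.inl ((hr _ _).mp h)
    · exact Or.inr ((hr _ _).mp h)
  · intro σ _ τ _ h
    exact Finset.image_injective hφ h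
  · intro τ hτ
    rw [mem_Ch] at hτ
    refine ⟨S.filter (fun a => φ a ∈ τ), ?_, ?_⟩
    · rw [mem_Ch]
      refine ⟨Finset.filter_subset _ _, ?_⟩
      intro a ha b hb hne
      have ha' := (Finset.mem_filter.mp (Finset.mem_coe.mp ha)).2
      have hb' := (Finset.mem_filter.mp (Finset.mem_coe.mp hb)).2
      rcases hτ.2 ha' hb' (fun h => hne (hφ h)) with h | h
      · exact Or.inl ((hr _ _).mpr h)
      · exact Or.inr ((hr _ _).mpr h)
    · ext b
      rw [Finset.mem_image]
      constructor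
      · rintro ⟨a, ha, rfl⟩
        exact (Finset.mem_filter.mp ha).2
      · intro hb
        obtain ⟨a, ha, rfl⟩ := Finset.mem_image.mp (hτ.1 hb)
        exact ⟨a, Finset.mem_filter.mpr ⟨ha, hb⟩, rfl⟩
  · intro σ _
    rw [Finset.card_image_of_injective _ hφ]

variable {E : Type} [Group E] {p : ℕ}

/-- the sum over the chains of nontrivial `p`-subgroups of a group -/
theorem W_alt [Finite E] (K : Set E) : W p K = alt (· ≤ ·) (SS p K ⊤ ⊥) := by
  have : Fintype {σ : Set (Subgroup E) // IsPChain p σ} := Fintype.ofFinite _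
  unfold W alt
  rw [finsum_eq_sum_of_fintype]
  have h2 : ∀ σ : {σ : Set (Subgroup E) // IsPChain p σ},
      (-1 : ℤ) ^ σ.1.ncard * (if ∀ Q ∈ σ.1, ∀ x ∈ K, conjSub x Q = Q then 1 else 0) =
      if ∀ Q ∈ σ.1, ∀ x ∈ K, conjSub x Q = Q then (-1 : ℤ) ^ σ.1.ncard else 0 := by
    intro σ
    split_ifs <;> simp
  simp only [h2]
  rw [← Finset.sum_filter]
  refine Finset.sum_bij (fun σ _ => fs σ.1) ?_ ?_ ?_ ?_
  · intro σ hσ
    rw [Finset.mem_filter] at hσ
    rw [mem_Ch]
    refine ⟨fun P hP => ?_, ?_⟩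
    · have hP' : P ∈ σ.1 := mem_fs.mp hP
      exact mem_SS.mpr ⟨σ.2.isPGroup P hP', bot_lt_iff_ne_bot.mpr (σ.2.ne_bot P hP'), le_top,
        hσ.2 P hP'⟩
    · intro P hP Q hQ hne
      exact σ.2.chain (mem_fs.mp hP) (mem_fs.mp hQ) hne
  · intro σ _ τ _ h
    apply Subtype.ext
    ext P
    rw [← mem_fs (s := σ.1), h, mem_fs]
  · intro τ hτ
    rw [mem_Ch] at hτ
    have hm : ∀ P ∈ τ, IsPGroup p P ∧ ⊥ < P ∧ P ≤ ⊤ ∧ ∀ x ∈ K, conjSub x P = P :=
      fun P hP => mem_SS.mp (hτ.1 hP)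
    refine ⟨⟨(τ : Set (Subgroup E)), ⟨hτ.2, fun P hP => (hm P hP).1,
      fun P hP => (hm P hP).2.1.ne'⟩⟩, ?_, ?_⟩
    · rw [Finset.mem_filter]
      exact ⟨Finset.mem_univ _, fun Q hQ => (hm Q hQ).2.2.2⟩
    · ext P
      rw [mem_fs]
      exact Iff.rfl
  · intro σ _
    congr 1
    rw [Set.ncard_eq_toFinset_card _ (Set.toFinite _)]
    rfl

/-- the posets of a subgroup -/
theorem alt_subgroup [Finite E] (C : Subgroup E) (K : Set C) :
    alt (· ≤ ·) (SS p ((fun x : C => (x : E)) '' K) C ⊥) = alt (· ≤ ·) (SS p K ⊤ ⊥) := by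
  have h := alt_image (r := fun a b : Subgroup C => a ≤ b) (r' := fun a b : Subgroup E => a ≤ b)
    (fun Q : Subgroup C => Q.map C.subtype) (Subgroup.map_injective C.subtype_injective)
    (fun a b => (Subgroup.map_le_map_iff_of_injective C.subtype_injective).symm)
    (SS p K ⊤ ⊥)
  rw [← h]
  congr 1
  ext R
  rw [mem_SS, Finset.mem_image]
  have hconj : ∀ (x : C) (Q : Subgroup C),
      conjSub (x : E) (Q.map C.subtype) = (conjSub x Q).map C.subtype := by
    intro x Q
    unfold conjSub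
    rw [Subgroup.map_map, Subgroup.map_map]
    rfl
  constructor
  · rintro ⟨h1, h2, h3, h4⟩
    refine ⟨R.subgroupOf C, ?_, ?_⟩
    · rw [mem_SS]
      refine ⟨h1.comap_subtype, ?_, le_top, ?_⟩
      · rw [bot_lt_iff_ne_bot, Ne, Subgroup.subgroupOf_eq_bot, disjoint_iff, inf_eq_left.mpr h3]
        exact h2.ne'
      · intro x hx
        have h5 := h4 x ⟨x, hx, rfl⟩
        apply Subgroup.map_injective C.subtype_injective
        rw [← hconj, Subgroup.map_subgroupOf_eq_of_le h3]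
        exact h5
    · exact Subgroup.map_subgroupOf_eq_of_le h3
  · rintro ⟨Q, hQ, rfl⟩
    rw [mem_SS] at hQ
    refine ⟨hQ.1.map _, ?_, Subgroup.map_subtype_le Q, ?_⟩
    · rw [bot_lt_iff_ne_bot, Ne, Subgroup.map_eq_bot_iff_of_injective _ C.subtype_injective]
      exact hQ.2.1.ne'
    · rintro _ ⟨x, hx, rfl⟩
      change conjSub (x : E) (Q.map C.subtype) = Q.map C.subtype
      rw [hconj, hQ.2.2.2 x hx]

/-- a `p`-element normalising a nontrivial `p`-group fixes a nontrivial element -/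
lemma exists_fixed [hp : Fact p.Prime] [Finite E] {R : Subgroup E} (hR : IsPGroup p R) (hR1 : R ≠ ⊥)
    {u : E} (hu : ∃ k : ℕ, u ^ p ^ k = 1) (huR : conjSub u R = R) :
    ∃ r ∈ R, r ≠ 1 ∧ u * r = r * u := by
  have hn : ∀ g ∈ Subgroup.zpowers u, ∀ r ∈ R, g * r * g⁻¹ ∈ R := by
    intro g hg r hr
    have h1 : Subgroup.zpowers u ≤ Subgroup.normalizer (R : Set E) := by
      rw [Subgroup.zpowers_le]
      exact conjSub_eq_iff.mp huR
    exact (Subgroup.mem_normalizer_iff.mp (h1 hg) r).mp hr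
  let _ : MulAction (Subgroup.zpowers u) R :=
    { smul := fun g r => ⟨g * r * (g : E)⁻¹, hn g g.2 r r.2⟩
      one_smul := fun r => Subtype.ext (by
        change (1 : E) * r * (1 : E)⁻¹ = r
        group)
      mul_smul := fun g h r => Subtype.ext (by
        change ((g : E) * h) * r * ((g : E) * h)⁻¹ = g * (h * r * (h : E)⁻¹) * (g : E)⁻¹
        group) }
  have hP : IsPGroup p (Subgroup.zpowers u) := by
    obtain ⟨k, hk⟩ := hu
    intro z
    obtain ⟨j, hj⟩ := Subgroup.mem_zpowers_iff.mp z.2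
    refine ⟨k, Subtype.ext ?_⟩
    change (z : E) ^ p ^ k = 1
    rw [← hj, ← zpow_natCast, ← zpow_mul, mul_comm, zpow_mul, zpow_natCast, hk, one_zpow]
  have hdvd : p ∣ Nat.card R := by
    obtain ⟨n, hn⟩ := hR.exists_card_eq
    rw [hn]
    refine dvd_pow_self p fun h0 => hR1 ?_
    rw [h0, pow_zero] at hn
    exact Subgroup.card_eq_one.mp hn
  obtain ⟨b, hb, hne⟩ := hP.exists_fixed_point_of_prime_dvd_card_of_fixed_point R hdvd
    (a := 1) (by
      intro g
      apply Subtype.ext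
      change (g : E) * 1 * (g : E)⁻¹ = 1
      group)
  refine ⟨b, b.2, fun h => hne (Subtype.ext h.symm), ?_⟩
  have h1 := congrArg Subtype.val (hb ⟨u, Subgroup.mem_zpowers u⟩)
  change u * b * u⁻¹ = b at h1
  calc u * b = u * b * u⁻¹ * u := by group
    _ = b * u := by rw [h1]

/-- `C_G(u)` -/
def CG (G : Subgroup E) (u : E) : Subgroup E := G ⊓ Subgroup.centralizer ({u} : Set E)

lemma mem_CG {G : Subgroup E} {u x : E} : x ∈ CG G u ↔ x ∈ G ∧ u * x = x * u := by
  unfold CG
  rw [Subgroup.mem_inf]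
  refine and_congr Iff.rfl ?_
  rw [Subgroup.mem_centralizer_iff]
  constructor
  · intro h
    exact h u rfl
  · intro h y hy
    rw [Set.mem_singleton_iff.mp hy]
    exact h

lemma conj_eq_self {u : E} {R : Subgroup E} (h : ∀ r ∈ R, u * r = r * u) : conjSub u R = R := by
  ext x
  rw [mem_conjSub]
  constructor
  · intro hx
    have h1 := h _ hx
    have : x = u⁻¹ * x * u := by
      calc x = u * (u⁻¹ * x * u) * u⁻¹ := by group
        _ = (u⁻¹ * x * u) * u * u⁻¹ := by rw [h1]
        _ = _ := by group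
    rw [this]; exact hx
  · intro hx
    have : u⁻¹ * x * u = x := by
      rw [mul_assoc, ← h x hx]; group
    rw [this]; exact hx

lemma conj_pow_eq {u : E} {R : Subgroup E} (h : conjSub u R = R) (n : ℕ) :
    conjSub (u ^ n) R = R := by
  rw [conjSub_eq_iff] at h ⊢
  exact Subgroup.pow_mem _ h n

/-- **Restriction to the centraliser of a `p`-element.** -/
theorem alt_centralizer [Fact p.Prime] [Finite E] {G : Subgroup E} [G.Normal] {x u z : E}
    (hu : ∃ k : ℕ, u ^ p ^ k = 1) (hx : x ∈ CG G u) (hz : z ∈ CG G u)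
    (hpow : ∃ n m : ℕ, (u * z) ^ n = u ∧ (u * z) ^ m = z) :
    alt (· ≤ ·) (SS p ({x, u * z} : Set E) G ⊥) =
      alt (· ≤ ·) (SS p ({x, z} : Set E) (CG G u) ⊥) := by
  obtain ⟨n, m, hn, hm⟩ := hpow
  refine retract_down ?_ (fun R => R ⊓ Subgroup.centralizer ({u} : Set E)) ?_ ?_ ?_ ?_
  · intro R hR
    rw [mem_SS] at hR ⊢
    refine ⟨hR.1, hR.2.1, hR.2.2.1.trans inf_le_left, ?_⟩
    have huR : conjSub u R = R := conj_eq_self fun r hr => (mem_CG.mp (hR.2.2.1 hr)).2
    rintro w (rfl | hw)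
    · exact hR.2.2.2 _ (by simp)
    · have hw' : w = u * z := hw
      rw [hw', conjSub_mul, hR.2.2.2 z (by simp), huR]
  · intro R hR
    rw [mem_SS] at hR ⊢
    have hy := hR.2.2.2 (u * z) (by simp)
    have huR : conjSub u R = R := by rw [← hn]; exact conj_pow_eq hy n
    have hzR : conjSub z R = R := by rw [← hm]; exact conj_pow_eq hy m
    have hc : ∀ w : E, u * w = w * u → conjSub w (Subgroup.centralizer ({u} : Set E)) =
        Subgroup.centralizer ({u} : Set E) := fun w hw => conjSub_eq_iff.mpr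
      (Subgroup.le_normalizer (Subgroup.mem_centralizer_singleton_iff.mpr hw.symm))
    refine ⟨hR.1.to_le inf_le_left, ?_, inf_le_inf_right _ hR.2.2.1, ?_⟩
    · obtain ⟨r, hr, hr1, hru⟩ := exists_fixed hR.1 hR.2.1.ne' hu huR
      rw [bot_lt_iff_ne_bot]
      intro h
      apply hr1
      rw [← Subgroup.mem_bot, ← h]
      exact ⟨hr, (Subgroup.mem_centralizer_singleton_iff).mpr hru.symm⟩
    · rintro w (rfl | hw)
      · rw [conjSub_inf, hR.2.2.2 _ (by simp), hc _ (mem_CG.mp hx).2]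
      · have hw' : w = z := hw
        rw [hw', conjSub_inf, hzR, hc _ (mem_CG.mp hz).2]
  · intro R _
    exact inf_le_left
  · intro R _ R' _ h
    exact inf_le_inf_right _ h
  · intro R hR
    rw [mem_SS] at hR
    exact inf_eq_left.mpr (hR.2.2.1.trans inf_le_right)

end Pool.Agent.Q100.IV
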